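import Mathlib

/-!
# The order of `∏ (1 - α q ^ (m - s))⁻¹` at `s = m`
-/

set_option autoImplicit false

namespace Pool.Agent.TH116.BM

open Polynomial

lemma factor_analytic (q : ℕ) (hq : 1 < q) (m α s₀ : ℂ) :
    AnalyticAt ℂ (fun s : ℂ => 1 - α * (q : ℂ) ^ (m - s)) s₀ := by
  have hq0 : (q : ℂ) ≠ 0 := by exact_mod_cast (by omega : q ≠ 0)
  have h1 : AnalyticAt ℂ (fun s : ℂ => (q : ℂ) ^ (m - s)) s₀ := by
    have h2 : (fun s : ℂ => (q : ℂ) ^ (m - s)) = fun s => Complex.exp (Complex.log q * (m - s)) := by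
      funext s
      rw [Complex.cpow_def_of_ne_zero hq0]
    rw [h2]
    fun_prop
  exact analyticAt_const.sub (analyticAt_const.mul h1)

lemma factor_order (q : ℕ) (hq : 1 < q) (m α : ℂ) :
    meromorphicOrderAt (fun s : ℂ => 1 - α * (q : ℂ) ^ (m - s)) m =
      if α = 1 then ((1 : ℤ) : WithTop ℤ) else ((0 : ℤ) : WithTop ℤ) := by
  have han := factor_analytic q hq m α m
  have hq0 : (q : ℂ) ≠ 0 := by exact_mod_cast (by omega : q ≠ 0)
  rw [han.meromorphicOrderAt_eq]
  split_ifs with h
  · subst h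
    have hval : (fun s : ℂ => 1 - 1 * (q : ℂ) ^ (m - s)) m = 0 := by simp
    have hlog : Complex.log q ≠ 0 := by
      intro h0
      have h1 := Complex.exp_log hq0
      rw [h0, Complex.exp_zero] at h1
      have h2 : (1 : ℕ) = q := by exact_mod_cast h1
      omega
    have hder : HasDerivAt (fun s : ℂ => 1 - 1 * (q : ℂ) ^ (m - s)) (Complex.log q) m := by
      have h2 : (fun s : ℂ => 1 - 1 * (q : ℂ) ^ (m - s)) =
          fun s => 1 - Complex.exp (Complex.log q * (m - s)) := by
        funext s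
        rw [Complex.cpow_def_of_ne_zero hq0, one_mul]
      rw [h2]
      have h3 : HasDerivAt (fun s : ℂ => Complex.log q * (m - s)) (Complex.log q * (0 - 1)) m :=
        ((hasDerivAt_const m m).sub (hasDerivAt_id m)).const_mul _
      have h4 := (h3.cexp).const_sub 1
      simpa using h4
    have h5 := han.analyticOrderAt_eq_one_of_zero_deriv_ne_zero hval
      (by rw [hder.deriv]; exact hlog)
    rw [h5]
    rfl
  · have hval : (fun s : ℂ => 1 - α * (q : ℂ) ^ (m - s)) m ≠ 0 := by
      simp only [sub_self, Complex.cpow_zero, mul_one]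
      exact sub_ne_zero.2 (Ne.symm h)
    rw [han.analyticOrderAt_eq_zero.2 hval]
    rfl

lemma prod_analytic (q : ℕ) (hq : 1 < q) (m s₀ : ℂ) (R : Multiset ℂ) :
    AnalyticAt ℂ (fun s : ℂ => (R.map fun α => 1 - α * (q : ℂ) ^ (m - s)).prod) s₀ := by
  induction R using Multiset.induction_on with
  | empty => simpa using analyticAt_const
  | cons α R ih =>
    simp only [Multiset.map_cons, Multiset.prod_cons]
    exact (factor_analytic q hq m α s₀).mul ih

lemma prod_order (q : ℕ) (hq : 1 < q) (m : ℂ) (R : Multiset ℂ) :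
    meromorphicOrderAt (fun s : ℂ => (R.map fun α => 1 - α * (q : ℂ) ^ (m - s)).prod) m =
      ((R.count 1 : ℤ) : WithTop ℤ) := by
  induction R using Multiset.induction_on with
  | empty =>
    simp only [Multiset.map_zero, Multiset.prod_zero, Multiset.count_zero]
    rw [meromorphicOrderAt_const]
    simp
  | cons α R ih =>
    simp only [Multiset.map_cons, Multiset.prod_cons]
    have h1 := meromorphicOrderAt_mul (factor_analytic q hq m α m).meromorphicAt
      (prod_analytic q hq m m R).meromorphicAt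
    have h2 : (fun s : ℂ => (1 - α * (q : ℂ) ^ (m - s)) *
        (R.map fun α => 1 - α * (q : ℂ) ^ (m - s)).prod) =
        (fun s : ℂ => 1 - α * (q : ℂ) ^ (m - s)) *
          fun s : ℂ => (R.map fun α => 1 - α * (q : ℂ) ^ (m - s)).prod := rfl
    rw [h2, h1, ih, factor_order q hq, Multiset.count_cons]
    split_ifs with h3 h4 h4
    · push_cast
      rw [add_comm]
    · exact absurd h3.symm h4
    · exact absurd h4.symm h3
    · push_cast
      rw [zero_add, add_zero]

/-- the order at `s = m` of `det (1 - q ^ (m - s) f)⁻¹` is minus the multiplicity of the eigenvalue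
`1` of `f` -/
theorem order_charpoly {K : Type} [Field K] {V : Type} [AddCommGroup V] [Module K V]
    [FiniteDimensional K V] (f : Module.End K V) (σ : K →+* ℂ) (q : ℕ) (hq : 1 < q) (m : ℂ) :
    meromorphicOrderAt (fun s : ℂ =>
      (((f.charpoly.map σ).roots.map fun α => 1 - α * (q : ℂ) ^ (m - s)).prod)⁻¹) m =
      ((-(Module.finrank K (f.maxGenEigenspace 1) : ℤ) : ℤ) : WithTop ℤ) := by
  have h1 := meromorphicOrderAt_inv (𝕜 := ℂ) (x := m)
    (f := fun s : ℂ => ((f.charpoly.map σ).roots.map fun α => 1 - α * (q : ℂ) ^ (m - s)).prod)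
  have h2 : (fun s : ℂ =>
      (((f.charpoly.map σ).roots.map fun α => 1 - α * (q : ℂ) ^ (m - s)).prod)⁻¹) =
      (fun s : ℂ => ((f.charpoly.map σ).roots.map fun α => 1 - α * (q : ℂ) ^ (m - s)).prod)⁻¹ :=
    rfl
  rw [h2, h1, prod_order q hq, count_roots, LinearMap.finrank_maxGenEigenspace_eq,
    eq_rootMultiplicity_map σ.injective, map_one]
  rfl

end Pool.Agent.TH116.BM
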