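import Pool.Agent.TH116.BM.Dev

/-!
# Open subsets of affine space and the strong Tate conjecture
-/

set_option autoImplicit false

namespace Pool.Agent.TH116.BM

open Module

variable {K : Type} [Field K]

/-- The class of `z` vanishes in the homology of `W ∖ B` for some closed subset `W` of dimension at most
`m + 1` which contains `z`, for example if the restriction of `z` to `X ∖ B` is rationally equivalent to
zero (then it is the divisor of rational functions on subvarieties of dimension `m + 1`). -/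
def Theory.Bounds (E : Theory K) {X : E.V} {m : ℕ} (z : E.Z X m) (B : Set (E.Pt X)) : Prop :=
  ∃ (W : Set (E.Pt X)) (h : E.supp z ⊆ W), IsClosed W ∧ E.dim W ≤ m + 1 ∧ E.cl z B h = 0

/-- Known properties of a finite morphism `f : Y → X` from a variety `Y` of dimension `d` which is
birational onto its image `Z`: an isomorphism over the complement of a closed subset `T` of dimension
`< d`. -/
def Theory.BirationalOnto (E : Theory K) {Y X : E.V} (f : E.Hom Y X) (Z T : Set (E.Pt X))
    (d : ℕ) : Prop :=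
  IsClosed Z ∧ IsClosed T ∧ T ⊆ Z ∧ E.onPt f ⁻¹' Z = Set.univ ∧ E.dim Z ≤ d ∧ E.dim T < d ∧
    (∀ T' : Set (E.Pt X), IsClosed T' → E.dim T' < d → E.dim (E.onPt f ⁻¹' T') < d) ∧
      ∀ T', IsClosed T' → T ⊆ T' → T' ⊆ Z →
        ∀ a b, Function.Injective (E.push f (a := a) (b := b) Z T')

/-- Compactifications of the affine spaces over a finite field, and known facts on them. -/
structure AffineSpaces (E : Theory K) where
  I : Type
  /-- `P i` is a proper variety of dimension `n i`, `inf i` a closed subset, and `P i ∖ inf i` is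
  isomorphic to the affine space of dimension `n i` -/
  n : I → ℕ
  P : I → E.V
  inf : ∀ i, Set (E.Pt (P i))
  closed_inf : ∀ i, IsClosed (inf i)
  dim_inf : ∀ i, E.dim (inf i) < n i
  /-- the homology of affine space -/
  homology : ∀ i (a b : ℤ), a ≠ 2 * n i → ∀ x : E.H a b Set.univ (inf i), x = 0
  /-- the subvarieties of dimension `m < n` are rationally equivalent to zero on affine space -/
  chow : ∀ i m (z : E.Z (P i) m), m < n i → E.Bounds z (inf i)
  /-- the intersection with `A` of the closure of the complement of `A` in a variety `A'` has smaller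
  dimension than `A'` -/
  dim_residual : ∀ {X : E.V} (A A' : Set (E.Pt X)), IsClosed A → IsClosed A' → 0 ≤ E.dim A' →
    E.dim (A ∩ closure (A' \ A)) < E.dim A'
  /-- a smooth projective variety `Y` of dimension `d ≥ 1` has a finite morphism to a (weighted
  projective) compactification of the affine space of dimension `d + 1` which is birational onto its
  image `Z` (separable Noether normalization and a primitive element), and no component of `Z` is
  contained in `inf i` -/
  project : ∀ Y, E.SP Y → ∀ d : ℕ, 1 ≤ d → E.dim (Set.univ : Set (E.Pt Y)) = d →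
    ∃ (i : I) (f : E.Hom Y (P i)) (Z T : Set (E.Pt (P i))), n i = d + 1 ∧
      E.BirationalOnto f Z T d ∧ E.dim (Z ∩ inf i) < d

/-- Every Frobenius invariant element of `H_{2m+1} (U, K(m)) = H^{2j-1} (U, K(j))`, `j = n - m ≥ 2`, where
`U = P i ∖ Z` is a nonempty open subset of the affine space of dimension `n`, vanishes on a smaller
nonempty open subset. -/
def AffineSpaces.GenericVanishing {E : Theory K} (D : AffineSpaces E) : Prop :=
  ∀ (i : D.I) (m : ℕ) (Z : Set (E.Pt (D.P i))), m + 2 ≤ D.n i → IsClosed Z → D.inf i ⊆ Z →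
    E.dim Z < D.n i → ∀ u : E.H (2 * m + 1) m Set.univ Z, E.F u = u →
      ∃ (Z' : Set (E.Pt (D.P i))) (h : Z ⊆ Z'), IsClosed Z' ∧ E.dim Z' < D.n i ∧
        E.incl subset_rfl h u = 0

namespace AffineSpaces

variable {E : Theory K} (D : AffineSpaces E)

/-- generalized invariants vanish generically, too -/
lemma die (h : D.GenericVanishing) {i : D.I} {m : ℕ} (hm : m + 2 ≤ D.n i) (k : ℕ) :
    ∀ (Z : Set (E.Pt (D.P i))), IsClosed Z → D.inf i ⊆ Z → E.dim Z < D.n i →
      ∀ u : E.H (2 * m + 1) m Set.univ Z, ((E.F - 1) ^ k) u = 0 →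
        ∃ (Z' : Set (E.Pt (D.P i))) (h : Z ⊆ Z'), IsClosed Z' ∧ E.dim Z' < D.n i ∧
          E.incl subset_rfl h u = 0 := by
  induction k with
  | zero =>
    intro Z hZ _ hd u hu
    have h0 : u = 0 := by simpa using hu
    exact ⟨Z, subset_rfl, hZ, hd, by rw [h0, map_zero]⟩
  | succ k ih =>
    intro Z hZ hinf hd u hu
    have h1 : E.F (((E.F - 1) ^ k) u) = ((E.F - 1) ^ k) u := by
      rw [pow_succ', Module.End.mul_apply, LinearMap.sub_apply, Module.End.one_apply,
        sub_eq_zero] at hu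
      exact hu
    obtain ⟨Z₁, hZ₁, hc₁, hd₁, h₁⟩ := h i m Z hm hZ hinf hd _ h1
    rw [pow_map (E.incl_F subset_rfl hZ₁)] at h₁
    obtain ⟨Z₂, hZ₂, hc₂, hd₂, h₂⟩ := ih Z₁ hc₁ (hinf.trans hZ₁) hd₁ _ h₁
    rw [E.incl_incl] at h₂
    exact ⟨Z₂, hZ₁.trans hZ₂, hc₂, hd₂, h₂⟩

/-- the main step: the strong Tate conjecture in dimension `d` from smaller dimensions -/
theorem step (h : D.GenericVanishing) {m d : ℕ} (hm : m < d)
    (ih : ∀ (X : E.V) (A : Set (E.Pt X)), IsClosed A → E.dim A < d → E.Strong m A ∅)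
    (Y : E.V) (hY : E.SP Y) (hd : E.dim (Set.univ : Set (E.Pt Y)) = d) :
    E.Strong m (Set.univ : Set (E.Pt Y)) ∅ := by
  obtain ⟨i, f, Z, T, hn, ⟨hZ, hT, hTZ, hpre, hdZ, hdT, hfin, hinj⟩, hdinf⟩ :=
    D.project Y hY d (by omega) hd
  suffices hs : E.Strong m (E.onPt f ⁻¹' Z) (E.onPt f ⁻¹' (∅ : Set (E.Pt (D.P i)))) by
    rw [hpre] at hs
    exact hs
  intro x hx
  set z := E.push f Z ∅ x with hz
  have hzg : z ∈ E.gen (2 * m) m Z ∅ := gen_map (E.push_F f Z ∅) hx
  set z₁ := E.incl (Set.subset_union_left : Z ⊆ Z ∪ D.inf i)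
    (Set.empty_subset (D.inf i)) z with hz₁
  have hz₁g : z₁ ∈ E.gen (2 * m) m (Z ∪ D.inf i) (D.inf i) := E.gen_incl _ _ hzg
  -- lift `z₁` to the complement of `Z` in affine space
  have ha : (2 * (m : ℤ)) + 1 = 2 * m + 1 := rfl
  have h1 : E.incl (Set.subset_univ (Z ∪ D.inf i)) (subset_refl (D.inf i)) z₁ = 0 :=
    D.homology i _ _ (by rw [hn]; push_cast; omega) _
  obtain ⟨u₀, hu₀⟩ := (E.exact_closed ha Set.subset_union_right (Set.subset_univ _) z₁).1 h1
  obtain ⟨u, hu, hbu⟩ := gen_lift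
    (E.bd_F ha (Set.subset_union_right : D.inf i ⊆ Z ∪ D.inf i) (Set.subset_univ _))
    (x := u₀) (by rw [hu₀]; exact hz₁g)
  rw [hu₀] at hbu
  -- it vanishes on a smaller open subset
  obtain ⟨k, hk⟩ := (mem_gen_iff _ _).1 hu
  have hdinf' : E.dim (Z ∪ D.inf i) < D.n i := by
    rw [E.dim_union]
    have := D.dim_inf i
    omega
  obtain ⟨Z', hZZ', hcZ', hdZ', huZ'⟩ := D.die h (by omega) k (Z ∪ D.inf i)
    (hZ.union (D.closed_inf i)) Set.subset_union_right hdinf' u hk
  obtain ⟨W, hW, hunion, hdimW⟩ : ∃ W : Set (E.Pt (D.P i)), IsClosed W ∧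
      Z' = Z ∪ (D.inf i ∪ W) ∧ E.dim (Z ∩ (D.inf i ∪ W)) < d := by
    refine ⟨closure (Z' \ (Z ∪ D.inf i)), isClosed_closure, ?_, ?_⟩
    · rw [← Set.union_assoc]
      apply Set.Subset.antisymm
      · intro p hp
        by_cases hp' : p ∈ Z ∪ D.inf i
        · exact Or.inl hp'
        · exact Or.inr (subset_closure ⟨hp, hp'⟩)
      · apply Set.union_subset hZZ'
        exact closure_minimal Set.sdiff_subset hcZ'
    · rcases lt_or_ge (E.dim Z') 0 with hneg | hpos
      · have h2 : E.dim (Z ∩ (D.inf i ∪ closure (Z' \ (Z ∪ D.inf i)))) ≤ E.dim Z' :=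
          E.dim_mono (Set.inter_subset_left.trans (Set.subset_union_left.trans hZZ'))
        omega
      · have h2 := D.dim_residual (Z ∪ D.inf i) Z' (hZ.union (D.closed_inf i)) hcZ' hpos
        have h3 : E.dim (Z ∩ closure (Z' \ (Z ∪ D.inf i))) ≤
            E.dim ((Z ∪ D.inf i) ∩ closure (Z' \ (Z ∪ D.inf i))) :=
          E.dim_mono (Set.inter_subset_inter_left _ Set.subset_union_left)
        rw [Set.inter_union_distrib_left, E.dim_union]
        apply max_lt hdinf
        omega
  subst hunion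
  have hBc : IsClosed (D.inf i ∪ W) := (D.closed_inf i).union hW
  -- so the boundary vanishes on an open subset of `Z`
  have h4 : E.incl (Set.subset_union_left : Z ⊆ Z ∪ (D.inf i ∪ W))
      (Set.empty_subset (D.inf i ∪ W)) z = 0 := by
    have h5 := E.bd_incl ha (Set.subset_union_right : D.inf i ⊆ Z ∪ D.inf i) (Set.subset_univ _)
      (Set.subset_union_right : D.inf i ∪ W ⊆ Z ∪ (D.inf i ∪ W)) (Set.subset_univ _)
      (subset_refl (Set.univ : Set (E.Pt (D.P i)))) hZZ'
      (Set.subset_union_left : D.inf i ⊆ D.inf i ∪ W) u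
    rw [huZ', map_zero, hbu, hz₁, E.incl_incl] at h5
    exact h5.symm
  have h6 : E.incl (subset_refl Z) (Set.empty_subset (Z ∩ (D.inf i ∪ W))) z = 0 := by
    apply (E.excision Z (D.inf i ∪ W) hZ hBc).1
    rw [map_zero, E.incl_incl]
    exact h4
  -- and `x` vanishes on an open subset of `Y`
  set T' := (Z ∩ (D.inf i ∪ W)) ∪ T with hT'
  have hT'c : IsClosed T' := (hZ.inter hBc).union hT
  have hT'Z : T' ⊆ Z := Set.union_subset Set.inter_subset_left hTZ
  have hT'd : E.dim T' < d := by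
    rw [hT', E.dim_union]
    exact max_lt hdimW hdT
  have h7 : E.incl (subset_refl Z) (Set.empty_subset T') z = 0 := by
    have h8 := congrArg (E.incl (subset_refl Z)
      (Set.subset_union_left : Z ∩ (D.inf i ∪ W) ⊆ T')) h6
    rw [E.incl_incl, map_zero] at h8
    exact h8
  have h9 : E.incl (Set.preimage_mono (subset_refl Z) :
      E.onPt f ⁻¹' Z ⊆ E.onPt f ⁻¹' Z) (Set.preimage_mono (Set.empty_subset T')) x = 0 := by
    apply hinj T' hT'c Set.subset_union_right hT'Z
    rw [map_zero, E.push_incl f (subset_refl Z) (Set.empty_subset T'), ← hz, h7]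
  obtain ⟨w, hw⟩ := (E.exact_total (Set.preimage_mono (Set.empty_subset T'))
    (Set.preimage_mono hT'Z) x).1 h9
  obtain ⟨w', hw', hww⟩ := gen_lift (E.incl_F (Set.preimage_mono hT'Z)
    (subset_refl (E.onPt f ⁻¹' (∅ : Set (E.Pt (D.P i)))))) (x := w) (by rw [hw]; exact hx)
  rw [← hw, ← hww]
  exact E.alg_incl _ _ (ih Y (E.onPt f ⁻¹' T') (hT'c.preimage (E.onPt f).continuous)
    (hfin T' hT'c hT'd) hw')

/-- generic vanishing implies the strong Tate conjecture for smooth projective varieties -/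
theorem strong_of_vanishing [CharZero K] (h : D.GenericVanishing) (m : ℕ) (Y : E.V)
    (hY : E.SP Y) : E.Strong m (Set.univ : Set (E.Pt Y)) ∅ := by
  suffices hs : ∀ (n : ℕ) (Y : E.V), E.SP Y → E.dim (Set.univ : Set (E.Pt Y)) ≤ n →
      E.Strong m (Set.univ : Set (E.Pt Y)) ∅ from
    hs _ Y hY (Int.self_le_toNat _)
  intro n
  induction n with
  | zero =>
    intro Y _ hd
    exact E.Strong_low ∅ isClosed_univ (hd.trans (by positivity))
  | succ n ih =>
    intro Y hY hd
    rcases le_or_gt (E.dim (Set.univ : Set (E.Pt Y))) m with hle | hgt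
    · exact E.Strong_low ∅ isClosed_univ hle
    · obtain ⟨d, hd'⟩ := Int.eq_ofNat_of_zero_le (show 0 ≤ E.dim (Set.univ : Set (E.Pt Y)) by omega)
      refine D.step h (m := m) (d := d) (by omega) ?_ Y hY hd'
      intro X A hA hdA
      exact E.Strong_of_SP m n ih X A hA (by push_cast at hd; omega)

/-- the strong Tate conjecture implies generic vanishing -/
theorem vanishing_of_strong
    (h : ∀ (m : ℕ) (X : E.V) (A B : Set (E.Pt X)), IsClosed A → B ⊆ A → E.Strong m A B) :
    D.GenericVanishing := by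
  intro i m Z hm hZ hinf hd u hu
  have ha : (2 * (m : ℤ)) + 1 = 2 * m + 1 := rfl
  have h1 : E.bd ha hinf (Set.subset_univ Z) u ∈ E.alg m Z (D.inf i) := by
    apply h m _ Z (D.inf i) hZ hinf
    apply gen_of_fixed
    rw [← E.bd_F, hu]
  have h2 : ∃ (Z' : Set (E.Pt (D.P i))) (h : Z ⊆ Z'), IsClosed Z' ∧ E.dim Z' < D.n i ∧
      E.incl h (subset_refl (D.inf i)) (E.bd ha hinf (Set.subset_univ Z) u) = 0 := by
    refine Submodule.span_induction (p := fun x _ => ∃ (Z' : Set (E.Pt (D.P i))) (h : Z ⊆ Z'),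
      IsClosed Z' ∧ E.dim Z' < D.n i ∧ E.incl h (subset_refl (D.inf i)) x = 0) ?_ ?_ ?_ ?_ h1
    · rintro _ ⟨z, hz, rfl⟩
      obtain ⟨W, hzW, hW, hdW, hcl⟩ := D.chow i m z (by omega)
      refine ⟨Z ∪ W, Set.subset_union_left, hZ.union hW, ?_, ?_⟩
      · rw [E.dim_union]
        omega
      · have h3 := congrArg (E.incl (Set.subset_union_right : W ⊆ Z ∪ W)
          (subset_refl (D.inf i))) hcl
        rw [E.cl_incl, map_zero] at h3
        rw [E.cl_incl]
        exact h3
    · exact ⟨Z, subset_rfl, hZ, hd, map_zero _⟩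
    · rintro x y _ _ ⟨Z₁, h₁, hc₁, hd₁, hx⟩ ⟨Z₂, h₂, hc₂, hd₂, hy⟩
      refine ⟨Z₁ ∪ Z₂, h₁.trans Set.subset_union_left, hc₁.union hc₂, ?_, ?_⟩
      · rw [E.dim_union]; exact max_lt hd₁ hd₂
      · have h3 := congrArg (E.incl (Set.subset_union_left : Z₁ ⊆ Z₁ ∪ Z₂)
          (subset_refl (D.inf i))) hx
        have h4 := congrArg (E.incl (Set.subset_union_right : Z₂ ⊆ Z₁ ∪ Z₂)
          (subset_refl (D.inf i))) hy
        rw [E.incl_incl, map_zero] at h3 h4
        rw [map_add, h3, h4, add_zero]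
    · rintro c x _ ⟨Z₁, h₁, hc₁, hd₁, hx⟩
      exact ⟨Z₁, h₁, hc₁, hd₁, by rw [map_smul, hx, smul_zero]⟩
  obtain ⟨Z', hZ', hc', hd', h3⟩ := h2
  refine ⟨Z', hZ', hc', hd', ?_⟩
  have h4 := E.bd_incl ha hinf (Set.subset_univ Z) (hinf.trans hZ') (Set.subset_univ Z')
    (subset_refl (Set.univ : Set (E.Pt (D.P i)))) hZ' (subset_refl (D.inf i)) u
  rw [h3] at h4
  obtain ⟨y, hy⟩ := (E.exact_open ha (hinf.trans hZ') (Set.subset_univ Z') _).1 h4
  have h5 : (2 * (m : ℤ)) + 1 ≠ 2 * D.n i := by omega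
  rw [← hy, D.homology i _ _ h5 y, map_zero]

/-- **The strong Tate conjecture for the smooth projective varieties over finite fields is equivalent
to generic vanishing for the open subsets of affine spaces.** -/
theorem main [CharZero K] :
    (∀ (Y : E.V), E.SP Y → ∀ m : ℕ, E.Strong m (Set.univ : Set (E.Pt Y)) ∅) ↔
      D.GenericVanishing :=
  ⟨fun h => D.vanishing_of_strong fun m X _ _ hA hB =>
      E.Strong_all m (fun Y hY => h Y hY m) X hA hB,
    fun h Y hY m => D.strong_of_vanishing h m Y hY⟩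

end AffineSpaces

end Pool.Agent.TH116.BM
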