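import Mathlib

/-!
# Étale Borel-Moore homology of the varieties over a finite field

`Theory K` is a list of the known facts on the étale Borel-Moore homology (with coefficients `K = ℚ_ℓ`)
of the varieties over a finite field `k` (separated schemes of finite type) which are used below. By
Nagata's theorem every variety is an open subvariety of a proper variety, so the varieties are the
locally closed subsets `A ∖ B` of proper varieties `X`, `B ⊆ A` closed in `X`. The homology
`H_a (A ∖ B, K(b))` is covariant for proper maps and contravariant for open immersions, so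
that it behaves like the homology of the pair `(A, B)`; the exact sequence of the triple `C ⊆ B ⊆ A` is the
localization sequence of the closed subvariety `B ∖ C` of `A ∖ C` with open complement `A ∖ B`.
-/

set_option autoImplicit false

namespace Pool.Agent.TH116.BM

/-- The étale Borel-Moore homology theory of the varieties over a finite field `k`, with coefficients
in `K = ℚ_ℓ`, `ℓ ≠ char k`: functoriality, action of Frobenius, localization sequences, excision, weights,
classes of algebraic cycles, push-forward, and smooth projective varieties with alterations. -/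
structure Theory (K : Type) [Field K] where
  /-- the proper varieties over `k` -/
  V : Type
  /-- the underlying topological space of `X` -/
  Pt : V → TopCat.{0}
  /-- the dimension of (the closure of) a subset, `-1` for the empty set -/
  dim : ∀ {X}, Set (Pt X) → ℤ
  dim_mono : ∀ {X} {A B : Set (Pt X)}, A ⊆ B → dim A ≤ dim B
  dim_union : ∀ {X} (A B : Set (Pt X)), dim (A ∪ B) = max (dim A) (dim B)
  dim_empty : ∀ X, dim (∅ : Set (Pt X)) = -1
  /-- `H a b A B` is the homology `H_a (A ∖ B, K(b))` of `A ∖ B` over the algebraic closure of `k`, for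
  closed subsets `A`, `B` of `X` (other subsets are replaced by their closures) -/
  H : ∀ {X}, ℤ → ℤ → Set (Pt X) → Set (Pt X) → ModuleCat.{0} K
  fin : ∀ {X} a b (A B : Set (Pt X)), Module.Finite K (H a b A B)
  /-- the Frobenius automorphism -/
  F : ∀ {X a b} {A B : Set (Pt X)}, H a b A B →ₗ[K] H a b A B
  /-- restriction to the open subset `A ∖ B'` of `A ∖ B` followed by the proper push-forward to
  `A' ∖ B'` -/
  incl : ∀ {X a b} {A B A' B' : Set (Pt X)}, A ⊆ A' → B ⊆ B' → (H a b A B →ₗ[K] H a b A' B')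
  incl_F : ∀ {X a b} {A B A' B' : Set (Pt X)} (h : A ⊆ A') (h' : B ⊆ B') (x : H a b A B),
    incl h h' (F x) = F (incl h h' x)
  incl_incl : ∀ {X a b} {A B A' B' A'' B'' : Set (Pt X)} (h₁ : A ⊆ A') (h₂ : B ⊆ B')
    (h₃ : A' ⊆ A'') (h₄ : B' ⊆ B'') (x : H a b A B),
    incl h₃ h₄ (incl h₁ h₂ x) = incl (h₁.trans h₃) (h₂.trans h₄) x

  /-- the boundary map of the localization sequence of `C ⊆ B ⊆ A` -/
  bd : ∀ {X a a' b} {A B C : Set (Pt X)}, a' + 1 = a → C ⊆ B → B ⊆ A →
    (H a b A B →ₗ[K] H a' b B C)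
  bd_F : ∀ {X a a' b} {A B C : Set (Pt X)} (h : a' + 1 = a) (h₁ : C ⊆ B) (h₂ : B ⊆ A)
    (x : H a b A B), bd h h₁ h₂ (F x) = F (bd h h₁ h₂ x)
  bd_incl : ∀ {X a a' b} {A B C A' B' C' : Set (Pt X)} (h : a' + 1 = a) (h₁ : C ⊆ B)
    (h₂ : B ⊆ A) (h₁' : C' ⊆ B') (h₂' : B' ⊆ A') (hA : A ⊆ A') (hB : B ⊆ B') (hC : C ⊆ C')
    (x : H a b A B), bd h h₁' h₂' (incl hA hB x) = incl hB hC (bd h h₁ h₂ x)
  exact_total : ∀ {X a b} {A B C : Set (Pt X)} (h₁ : C ⊆ B) (h₂ : B ⊆ A) (x : H a b A C),
    incl subset_rfl h₁ x = 0 ↔ ∃ y : H a b B C, incl h₂ subset_rfl y = x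
  exact_open : ∀ {X a a' b} {A B C : Set (Pt X)} (h : a' + 1 = a) (h₁ : C ⊆ B) (h₂ : B ⊆ A)
    (x : H a b A B), bd h h₁ h₂ x = 0 ↔ ∃ y : H a b A C, incl subset_rfl h₁ y = x
  exact_closed : ∀ {X a a' b} {A B C : Set (Pt X)} (h : a' + 1 = a) (h₁ : C ⊆ B) (h₂ : B ⊆ A)
    (x : H a' b B C), incl h₂ subset_rfl x = 0 ↔ ∃ y : H a b A B, bd h h₁ h₂ y = x
  /-- excision: `(A ∪ B) ∖ B = A ∖ (A ∩ B)` -/
  excision : ∀ {X a b} (A B : Set (Pt X)), IsClosed A → IsClosed B → Function.Bijective
    (incl (a := a) (b := b) (Set.subset_union_left : A ⊆ A ∪ B) (Set.inter_subset_right : A ∩ B ⊆ B))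
  /-- weights: the weights of `H_a (A ∖ B, K(b))` are at least `2 b - a` (Deligne), so `1` is no
  eigenvalue of Frobenius if `a < 2 b` -/
  weight : ∀ {X a b} {A B : Set (Pt X)}, a < 2 * b → ∀ x : H a b A B, F x = x → x = 0

  /-- algebraic cycles: the integral closed subvarieties `z` of dimension `m` of `X`, their supports,
  and the classes in `H_{2m} (A ∖ B, K(m))` of their restrictions to `A ∖ B` -/
  Z : V → ℕ → Type
  supp : ∀ {X m}, Z X m → Set (Pt X)
  closed_supp : ∀ {X m} (z : Z X m), IsClosed (supp z)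
  dim_supp : ∀ {X m} (z : Z X m), dim (supp z) = m
  cl : ∀ {X m} (z : Z X m) {A : Set (Pt X)} (B : Set (Pt X)), supp z ⊆ A → H (2 * m) m A B
  cl_F : ∀ {X m} (z : Z X m) {A B : Set (Pt X)} (h : supp z ⊆ A), F (cl z B h) = cl z B h
  cl_incl : ∀ {X m} (z : Z X m) {A B A' B' : Set (Pt X)} (h : supp z ⊆ A) (hA : A ⊆ A')
    (hB : B ⊆ B'), incl hA hB (cl z B h) = cl z B' (h.trans hA)
  cl_zero : ∀ {X m} (z : Z X m) {A B : Set (Pt X)} (h : supp z ⊆ A), supp z ⊆ B → cl z B h = 0
  /-- if `dim A ≤ m`, then `H_{2m} (A ∖ B, K(m))` is the space of functions on the set of geometric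
  components of dimension `m` of `A ∖ B`: Frobenius has finite order, and the invariants are spanned
  by the classes of the components -/
  low_order : ∀ {X} {m : ℕ} {A : Set (Pt X)} (B : Set (Pt X)), dim A ≤ m →
    ∃ N : ℕ, 0 < N ∧ ∀ x : H (2 * m) m A B, (F ^ N) x = x
  low_span : ∀ {X} {m : ℕ} {A : Set (Pt X)} (B : Set (Pt X)), IsClosed A → dim A ≤ m →
    ∀ x : H (2 * m) m A B, F x = x →
      x ∈ Submodule.span K {y | ∃ (z : Z X m) (h : supp z ⊆ A), cl z B h = y}

  /-- the morphisms of proper varieties and the push-forward -/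
  Hom : V → V → Type
  /-- the map of topological spaces -/
  onPt : ∀ {Y X}, Hom Y X → C(Pt Y, Pt X)
  push : ∀ {Y X} (f : Hom Y X) {a b} (A B : Set (Pt X)),
    H a b (onPt f ⁻¹' A) (onPt f ⁻¹' B) →ₗ[K] H a b A B
  push_F : ∀ {Y X} (f : Hom Y X) {a b} (A B : Set (Pt X))
    (x : H a b (onPt f ⁻¹' A) (onPt f ⁻¹' B)), push f A B (F x) = F (push f A B x)
  push_incl : ∀ {Y X} (f : Hom Y X) {a b} {A B A' B' : Set (Pt X)} (hA : A ⊆ A') (hB : B ⊆ B')
    (x : H a b (onPt f ⁻¹' A) (onPt f ⁻¹' B)),
    push f A' B' (incl (Set.preimage_mono hA) (Set.preimage_mono hB) x) =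
      incl hA hB (push f A B x)
  push_cl : ∀ {Y X} (f : Hom Y X) {m} {A : Set (Pt X)} (B : Set (Pt X)) (z : Z Y m)
    (h : supp z ⊆ onPt f ⁻¹' A), push f A B (cl z (onPt f ⁻¹' B) h) ∈
      Submodule.span K {y | ∃ (z : Z X m) (h : supp z ⊆ A), cl z B h = y}
  /-- the smooth projective varieties (equidimensional, not necessarily connected) -/
  SP : V → Prop
  /-- alterations (de Jong): a nonempty closed subset `A` is the image of a smooth projective variety
  `Y` of the same dimension, and over the complement in `A` of a closed subset `T` of smaller dimension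
  the map is finite and flat, so that the push-forward is surjective there -/
  alteration : ∀ {X} (A : Set (Pt X)), IsClosed A → 0 ≤ dim A → ∃ (Y : V) (f : Hom Y X)
    (T : Set (Pt X)), SP Y ∧ dim (Set.univ : Set (Pt Y)) = dim A ∧ onPt f ⁻¹' A = Set.univ ∧
      IsClosed T ∧ T ⊆ A ∧ dim T < dim A ∧ ∀ a b, Function.Surjective (push f (a := a) (b := b) A T)

attribute [instance] Theory.fin

variable {K : Type} [Field K]

/-- the span of the classes of the closed subvarieties of dimension `m` of `A ∖ B` -/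
def Theory.alg (E : Theory K) {X : E.V} (m : ℕ) (A B : Set (E.Pt X)) :
    Submodule K (E.H (2 * m) m A B) :=
  Submodule.span K {y | ∃ (z : E.Z X m) (h : E.supp z ⊆ A), E.cl z B h = y}

/-- The Tate conjecture for cycles of dimension `m` on the variety `A ∖ B`: every invariant element of
`H_{2m} (A ∖ B, K(m))` is a combination of classes of closed subvarieties. -/
def Theory.Tate (E : Theory K) {X : E.V} (m : ℕ) (A B : Set (E.Pt X)) : Prop :=
  ∀ x : E.H (2 * m) m A B, E.F x = x → x ∈ E.alg m A B

/-- Frobenius is semisimple at the eigenvalue `1` on `H_{2m} (A ∖ B, K(m))`. -/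
def Theory.SemisimpleAtOne (E : Theory K) {X : E.V} (m : ℕ) (A B : Set (E.Pt X)) : Prop :=
  ∀ x : E.H (2 * m) m A B, E.F (E.F x - x) = E.F x - x → E.F x = x

/-- The strong Tate conjecture for cycles of dimension `m` on `A ∖ B`: every element of the
generalized eigenspace of Frobenius for the eigenvalue `1` is a combination of classes of closed
subvarieties; in other words the Tate conjecture holds and Frobenius is semisimple at `1`. -/
def Theory.Strong (E : Theory K) {X : E.V} (m : ℕ) (A B : Set (E.Pt X)) : Prop :=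
  Module.End.maxGenEigenspace (E.F : Module.End K (E.H (2 * m) m A B)) 1 ≤ E.alg m A B

end Pool.Agent.TH116.BM
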