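import Mathlib

/-!
# Generalized eigenvectors for the eigenvalue one
-/

set_option autoImplicit false

namespace Pool.Agent.TH116.BM

open Polynomial Module

variable {K : Type*} [Field K] {M N : Type*} [AddCommGroup M] [Module K M] [AddCommGroup N]
  [Module K N]

lemma mem_gen_iff (f : End K M) (x : M) :
    x ∈ End.maxGenEigenspace f 1 ↔ ∃ k : ℕ, ((f - 1) ^ k) x = 0 := by
  rw [End.mem_maxGenEigenspace, one_smul]

lemma gen_of_fixed {f : End K M} {x : M} (h : f x = x) : x ∈ End.maxGenEigenspace f 1 := by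
  rw [mem_gen_iff]
  exact ⟨1, by rw [pow_one, LinearMap.sub_apply, h, Module.End.one_apply, sub_self]⟩

/-- equivariant maps commute with the powers of `f - 1` -/
lemma pow_map {f : End K M} {g : End K N} {φ : M →ₗ[K] N} (h : ∀ x, φ (f x) = g (φ x)) (k : ℕ)
    (x : M) : φ (((f - 1) ^ k) x) = ((g - 1) ^ k) (φ x) := by
  induction k generalizing x with
  | zero => simp
  | succ k ih =>
    rw [pow_succ, pow_succ, Module.End.mul_apply, Module.End.mul_apply, ih, LinearMap.sub_apply,
      LinearMap.sub_apply, map_sub, h, Module.End.one_apply, Module.End.one_apply]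

lemma gen_map {f : End K M} {g : End K N} {φ : M →ₗ[K] N} (h : ∀ x, φ (f x) = g (φ x)) {x : M}
    (hx : x ∈ End.maxGenEigenspace f 1) : φ x ∈ End.maxGenEigenspace g 1 := by
  rw [mem_gen_iff] at hx ⊢
  obtain ⟨k, hk⟩ := hx
  exact ⟨k, by rw [← pow_map h, hk, map_zero]⟩

lemma aeval_X_sub_one (f : End K M) : aeval f (X - C (1 : K)) = f - 1 := by
  rw [map_sub, aeval_X, map_one, map_one]

lemma aeval_map {f : End K M} {g : End K N} {φ : M →ₗ[K] N} (h : ∀ x, φ (f x) = g (φ x))
    (p : K[X]) (z : M) : φ (aeval f p z) = aeval g p (φ z) := by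
  induction p using Polynomial.induction_on' generalizing z with
  | add p q hp hq =>
    rw [map_add, map_add, LinearMap.add_apply, LinearMap.add_apply, map_add, hp, hq]
  | monomial n c =>
    rw [← C_mul_X_pow_eq_monomial, map_mul, map_mul, aeval_C, aeval_C, map_pow, map_pow,
      aeval_X, aeval_X, Module.End.mul_apply, Module.End.mul_apply,
      Module.algebraMap_end_apply, Module.algebraMap_end_apply, map_smul]
    congr 1
    induction n generalizing z with
    | zero => simp
    | succ n ih => rw [pow_succ, pow_succ, Module.End.mul_apply, Module.End.mul_apply, ih, h]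

/-- a generalized eigenvector in the image of an equivariant map is the image of a generalized
eigenvector -/
theorem gen_lift [FiniteDimensional K M] {f : End K M} {g : End K N} {φ : M →ₗ[K] N}
    (h : ∀ x, φ (f x) = g (φ x)) {x : M} (hx : φ x ∈ End.maxGenEigenspace g 1) :
    ∃ y ∈ End.maxGenEigenspace f 1, φ y = φ x := by
  rw [mem_gen_iff] at hx
  obtain ⟨k, hk⟩ := hx
  obtain ⟨q, hq, hdvd⟩ := f.charpoly.exists_eq_pow_rootMultiplicity_mul_and_not_dvd
    (LinearMap.charpoly_monic f).ne_zero 1
  generalize f.charpoly.rootMultiplicity 1 = a at hq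
  have hirr : Irreducible (X - C (1 : K)) := irreducible_X_sub_C 1
  have hcop : IsCoprime ((X - C (1 : K)) ^ (max a k)) q :=
    IsCoprime.pow_left ((Irreducible.coprime_iff_not_dvd hirr).2 hdvd)
  obtain ⟨u, v, huv⟩ := hcop
  have hch : aeval f f.charpoly = 0 := LinearMap.aeval_self_charpoly f
  refine ⟨aeval f (v * q) x, ?_, ?_⟩
  · rw [mem_gen_iff]
    refine ⟨a, ?_⟩
    have h0 : (f - 1) ^ a = aeval f ((X - C (1 : K)) ^ a) := by
      rw [map_pow, aeval_X_sub_one]
    have h1 : (X - C (1 : K)) ^ a * (v * q) = v * f.charpoly := by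
      rw [hq]; ring
    rw [h0, ← Module.End.mul_apply, ← map_mul, h1, map_mul, hch, mul_zero, LinearMap.zero_apply]
  · rw [aeval_map h]
    have h3 : v * q = 1 - u * (X - C (1 : K)) ^ (max a k) := by
      rw [← huv]; ring
    rw [h3, map_sub, map_one, LinearMap.sub_apply, Module.End.one_apply, map_mul, map_pow,
      aeval_X_sub_one, Module.End.mul_apply]
    have h4 : ((g - 1) ^ max a k) (φ x) = 0 := by
      obtain ⟨c, hc⟩ := Nat.exists_eq_add_of_le (le_max_right a k)
      rw [hc, add_comm, pow_add, Module.End.mul_apply, hk, map_zero]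
    rw [h4, map_zero, sub_zero]

/-- an element fixed by a power of `f` and killed by a power of `f - 1` is fixed by `f` -/
lemma fixed_of_pow [CharZero K] {f : End K M} {x : M} {n : ℕ} (hn : 0 < n) (h : (f ^ n) x = x)
    (hx : x ∈ End.maxGenEigenspace f 1) : f x = x := by
  rw [mem_gen_iff] at hx
  obtain ⟨k, hk⟩ := hx
  have hX : aeval f (X - C (1 : K)) = f - 1 := aeval_X_sub_one f
  -- `X ^ n - 1 = (X - 1) q` with `q` prime to `X - 1`
  have hsep : (X ^ n - C (1 : K)).Separable :=
    separable_X_pow_sub_C 1 (by exact_mod_cast hn.ne') one_ne_zero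
  obtain ⟨q, hq⟩ : X - C (1 : K) ∣ X ^ n - C 1 := by
    rw [dvd_iff_isRoot]; simp
  have hcop : IsCoprime (X - C (1 : K)) q := by
    rw [hq] at hsep
    exact hsep.isCoprime
  have hcop2 : IsCoprime ((X - C (1 : K)) ^ k) q := IsCoprime.pow_left hcop
  obtain ⟨u, v, huv⟩ := hcop2
  have h1 : (aeval f (X ^ n - C (1 : K))) x = 0 := by
    rw [map_sub, map_pow, aeval_X, map_one, map_one, LinearMap.sub_apply, h, Module.End.one_apply,
      sub_self]
  have h2 : (f - 1) x = 0 := by
    have h3 : X - C (1 : K) = u * (X - C 1) * (X - C 1) ^ k + v * (X ^ n - C 1) := by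
      rw [hq]
      calc X - C (1 : K) = (X - C 1) * 1 := by ring
        _ = (X - C 1) * (u * (X - C 1) ^ k + v * q) := by rw [huv]
        _ = _ := by ring
    rw [← hX, h3, map_add, LinearMap.add_apply, map_mul, Module.End.mul_apply, map_pow, hX, hk,
      map_zero, zero_add, map_mul, Module.End.mul_apply, h1, map_zero]
  rw [LinearMap.sub_apply, Module.End.one_apply, sub_eq_zero] at h2
  exact h2

end Pool.Agent.TH116.BM
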