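import Pool.Agent.TH116.BM.Defs
import Pool.Agent.TH116.BM.Lin

/-!
# Dévissage for the strong Tate conjecture
-/

set_option autoImplicit false

namespace Pool.Agent.TH116.BM

open Module

variable {K : Type} [Field K]

section groups

variable (E : Theory K) {X : E.V}

/-- the generalized eigenspace of Frobenius for the eigenvalue one -/
abbrev Theory.gen {X : E.V} (a b : ℤ) (A B : Set (E.Pt X)) : Submodule K (E.H a b A B) :=
  End.maxGenEigenspace (E.F : End K (E.H a b A B)) 1

lemma Theory.gen_incl {a b : ℤ} {A B A' B' : Set (E.Pt X)} (h : A ⊆ A') (h' : B ⊆ B')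
    {x : E.H a b A B} (hx : x ∈ E.gen a b A B) : E.incl h h' x ∈ E.gen a b A' B' :=
  gen_map (E.incl_F h h') hx

/-- if Frobenius has no nonzero invariants, it has no generalized invariants -/
lemma Theory.gen_eq_zero {a b : ℤ} {A B : Set (E.Pt X)}
    (h : ∀ x : E.H a b A B, E.F x = x → x = 0)
    {x : E.H a b A B} (hx : x ∈ E.gen a b A B) : x = 0 := by
  rw [mem_gen_iff] at hx
  obtain ⟨k, hk⟩ := hx
  induction k with
  | zero => simpa using hk
  | succ k ih =>
    apply ih
    apply h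
    rw [pow_succ', Module.End.mul_apply, LinearMap.sub_apply, Module.End.one_apply,
      sub_eq_zero] at hk
    exact hk

end groups

lemma Theory.gen_bd (E : Theory K) {X : E.V} {a a' b : ℤ} {A B C : Set (E.Pt X)}
    (h : a' + 1 = a) (h₁ : C ⊆ B) (h₂ : B ⊆ A)
    {x : E.H a b A B} (hx : x ∈ E.gen a b A B) : E.bd h h₁ h₂ x ∈ E.gen a' b B C :=
  gen_map (E.bd_F h h₁ h₂) hx

/-- every generalized invariant of an open subvariety is the restriction of a generalized invariant -/
lemma Theory.gen_surj (E : Theory K) {X : E.V} {m : ℕ} {A B C : Set (E.Pt X)}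
    (h₁ : C ⊆ B) (h₂ : B ⊆ A) {x : E.H (2 * m) m A B}
    (hx : x ∈ E.gen (2 * m) m A B) : ∃ y ∈ E.gen (2 * m) m A C, E.incl subset_rfl h₁ y = x := by
  have h0 : (2 * (m : ℤ) - 1) + 1 = 2 * m := by ring
  have h3 : E.bd h0 h₁ h₂ x = 0 :=
    E.gen_eq_zero (E.weight (by omega)) (E.gen_bd h0 h₁ h₂ hx)
  obtain ⟨y, rfl⟩ := (E.exact_open h0 h₁ h₂ x).1 h3
  exact gen_lift (E.incl_F subset_rfl h₁) hx

section cycles

variable (E : Theory K) {X : E.V} {m : ℕ}

namespace Theory

lemma alg_fixed {A B : Set (E.Pt X)} {x : E.H (2 * m) m A B} (hx : x ∈ E.alg m A B) :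
    E.F x = x := by
  refine Submodule.span_induction (p := fun x _ => E.F x = x) ?_ ?_ ?_ ?_ hx
  · rintro _ ⟨z, h, rfl⟩
    exact E.cl_F z h
  · exact map_zero _
  · intro x y _ _ hx hy
    rw [map_add, hx, hy]
  · intro c x _ hx
    rw [map_smul, hx]

lemma alg_gen {A B : Set (E.Pt X)} {x : E.H (2 * m) m A B} (hx : x ∈ E.alg m A B) :
    x ∈ E.gen (2 * m) m A B :=
  gen_of_fixed (E.alg_fixed hx)

lemma alg_incl {A B A' B' : Set (E.Pt X)} (h : A ⊆ A') (h' : B ⊆ B') {x : E.H (2 * m) m A B}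
    (hx : x ∈ E.alg m A B) : E.incl h h' x ∈ E.alg m A' B' := by
  refine Submodule.span_induction (p := fun x _ => E.incl h h' x ∈ E.alg m A' B') ?_ ?_ ?_ ?_ hx
  · rintro _ ⟨z, hz, rfl⟩
    rw [E.cl_incl z hz h h']
    exact Submodule.subset_span ⟨z, hz.trans h, rfl⟩
  · rw [map_zero]; exact zero_mem _
  · intro x y _ _ hx hy
    rw [map_add]; exact add_mem hx hy
  · intro c x _ hx
    rw [map_smul]; exact Submodule.smul_mem _ _ hx

/-- cycles on an open subvariety are restrictions of cycles -/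
lemma alg_lift {A B C : Set (E.Pt X)} (h : C ⊆ B) {x : E.H (2 * m) m A B}
    (hx : x ∈ E.alg m A B) : ∃ y ∈ E.alg m A C, E.incl subset_rfl h y = x := by
  refine Submodule.span_induction
    (p := fun x _ => ∃ y ∈ E.alg m A C, E.incl subset_rfl h y = x) ?_ ?_ ?_ ?_ hx
  · rintro _ ⟨z, hz, rfl⟩
    exact ⟨E.cl z C hz, Submodule.subset_span ⟨z, hz, rfl⟩, E.cl_incl z hz subset_rfl h⟩
  · exact ⟨0, zero_mem _, map_zero _⟩
  · rintro x y _ _ ⟨x', hx', rfl⟩ ⟨y', hy', rfl⟩
    exact ⟨x' + y', add_mem hx' hy', map_add _ _ _⟩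
  · rintro c x _ ⟨x', hx', rfl⟩
    exact ⟨c • x', Submodule.smul_mem _ _ hx', map_smul _ _ _⟩

lemma Tate_of_Strong {A B : Set (E.Pt X)} (h : E.Strong m A B) : E.Tate m A B :=
  fun _ hx => h (gen_of_fixed hx)

lemma Strong_open {A B C : Set (E.Pt X)} (h₁ : C ⊆ B) (h₂ : B ⊆ A) (h : E.Strong m A C) :
    E.Strong m A B := by
  intro x hx
  obtain ⟨y, hy, rfl⟩ := E.gen_surj h₁ h₂ hx
  exact E.alg_incl _ _ (h hy)

lemma Strong_total {A B C : Set (E.Pt X)} (h₁ : C ⊆ B) (h₂ : B ⊆ A) (hB : E.Strong m B C)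
    (hA : E.Strong m A B) : E.Strong m A C := by
  intro x hx
  obtain ⟨y, hy, hyx⟩ := E.alg_lift h₁ (hA (E.gen_incl subset_rfl h₁ hx))
  have h3 : E.incl (subset_refl A) h₁ (x - y) = 0 := by rw [map_sub, hyx, sub_self]
  obtain ⟨w, hw⟩ := (E.exact_total h₁ h₂ _).1 h3
  have h4 : E.incl h₂ (subset_refl C) w ∈ E.gen (2 * m) m A C := by
    rw [hw]; exact sub_mem hx (E.alg_gen hy)
  obtain ⟨w', hw', hww⟩ := gen_lift (E.incl_F h₂ (subset_refl C)) h4
  have h5 : x = E.incl h₂ (subset_refl C) w' + y := by rw [hww, hw, sub_add_cancel]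
  rw [h5]
  exact add_mem (E.alg_incl _ _ (hB hw')) hy

lemma Strong_low [CharZero K] {A : Set (E.Pt X)} (B : Set (E.Pt X)) (hA : IsClosed A)
    (h : E.dim A ≤ m) : E.Strong m A B := by
  intro x hx
  obtain ⟨N, hN, hF⟩ := E.low_order B h
  exact E.low_span B hA h x (fixed_of_pow hN (hF x) hx)

/-- **The Tate conjecture for all open subvarieties implies semisimplicity.** -/
theorem Strong_of_Tate [CharZero K] {A C : Set (E.Pt X)} (hC : C ⊆ A) (hcl : IsClosed C)
    (h : ∀ B, IsClosed B → C ⊆ B → B ⊆ A → E.Tate m A B) : E.Strong m A C := by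
  classical
  obtain ⟨S, hS, hspan⟩ := (Submodule.fg_span_iff_fg_span_finset_subset _).1
    (IsNoetherian.noetherian (E.alg m A C))
  have hS' : ∀ y ∈ S, ∃ (z : E.Z X m) (h : E.supp z ⊆ A), E.cl z C h = y := fun y hy => hS hy
  -- the union of the supports
  have hsup : ∀ S' : Finset (E.H (2 * m) m A C), S' ⊆ S → ∃ D : Set (E.Pt X), IsClosed D ∧
      D ⊆ A ∧ E.dim D ≤ m ∧
      ∀ y ∈ S', ∃ (z : E.Z X m) (h : E.supp z ⊆ A), E.cl z C h = y ∧ E.supp z ⊆ D := by
    intro S'
    induction S' using Finset.induction_on with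
    | empty =>
      intro _
      exact ⟨∅, isClosed_empty, Set.empty_subset _, by rw [E.dim_empty]; omega,
        fun y hy => absurd hy (Finset.notMem_empty y)⟩
    | insert y S' _ ih =>
      intro hsub
      obtain ⟨D, hDc, hD, hdim, hD'⟩ := ih (fun a ha => hsub (Finset.mem_insert_of_mem ha))
      obtain ⟨z, hz, hzy⟩ := hS' y (hsub (Finset.mem_insert_self y S'))
      refine ⟨E.supp z ∪ D, (E.closed_supp z).union hDc, Set.union_subset hz hD, ?_, ?_⟩
      · rw [E.dim_union, E.dim_supp]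
        exact max_le le_rfl hdim
      · intro a ha
        rcases Finset.mem_insert.1 ha with rfl | ha
        · exact ⟨z, hz, hzy, Set.subset_union_left⟩
        · obtain ⟨z', hz', h1, h2⟩ := hD' a ha
          exact ⟨z', hz', h1, h2.trans Set.subset_union_right⟩
  obtain ⟨D, hDc, hDA, hdim, hD⟩ := hsup S (Finset.Subset.refl S)
  have hCB : C ⊆ D ∪ C := Set.subset_union_right
  have hBA : D ∪ C ⊆ A := Set.union_subset hDA hC
  -- there are no algebraic classes on `A ∖ (D ∪ C)`
  have halg : ∀ x ∈ E.alg m A (D ∪ C), x = 0 := by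
    intro x hx
    obtain ⟨y, hy, rfl⟩ := E.alg_lift hCB hx
    have hy' : y ∈ Submodule.span K (S : Set (E.H (2 * m) m A C)) := by
      rw [← hspan]; exact hy
    refine Submodule.span_induction (p := fun y _ => E.incl (subset_refl A) hCB y = 0)
      ?_ ?_ ?_ ?_ hy'
    · intro y hy
      obtain ⟨z, hz, rfl, hzD⟩ := hD y hy
      rw [E.cl_incl]
      exact E.cl_zero _ _ (hzD.trans Set.subset_union_left)
    · exact map_zero _
    · intro a b _ _ ha hb
      rw [map_add, ha, hb, add_zero]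
    · intro c a _ ha
      rw [map_smul, ha, smul_zero]
  intro x hx
  have h1 : E.incl (subset_refl A) hCB x = 0 :=
    E.gen_eq_zero (fun y hy => halg y (h _ (hDc.union hcl) hCB hBA y hy)) (E.gen_incl _ _ hx)
  obtain ⟨w, rfl⟩ := (E.exact_total hCB hBA x).1 h1
  obtain ⟨w', hw', hww⟩ := gen_lift (E.incl_F hBA (subset_refl C)) hx
  rw [← hww]
  obtain ⟨v, rfl⟩ := (E.excision D C hDc hcl).2 w'
  obtain ⟨v', hv', hvv⟩ :=
    gen_lift (E.incl_F Set.subset_union_left Set.inter_subset_right) hw'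
  obtain ⟨N, hN, hF⟩ := E.low_order (D ∩ C) hdim
  have h2 : E.F v' = v' := fixed_of_pow hN (hF v') hv'
  rw [← hvv]
  apply h C hcl subset_rfl hC
  rw [← E.incl_F, ← E.incl_F, h2]

lemma Strong_iff {A B : Set (E.Pt X)} :
    E.Strong m A B ↔ E.Tate m A B ∧ E.SemisimpleAtOne m A B := by
  constructor
  · refine fun h => ⟨E.Tate_of_Strong h, fun x hx => E.alg_fixed (h ?_)⟩
    rw [mem_gen_iff]
    refine ⟨2, ?_⟩
    rw [pow_two, Module.End.mul_apply, LinearMap.sub_apply, Module.End.one_apply,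
      LinearMap.sub_apply, Module.End.one_apply, hx, sub_self]
  · rintro ⟨h1, h2⟩ x hx
    rw [mem_gen_iff] at hx
    obtain ⟨k, hk⟩ := hx
    apply h1
    induction k with
    | zero =>
      have h3 : x = 0 := by simpa using hk
      rw [h3, map_zero]
    | succ k ih =>
      rcases Nat.eq_zero_or_pos k with rfl | hpos
      · simpa [sub_eq_zero] using hk
      · apply ih
        obtain ⟨l, rfl⟩ := Nat.exists_eq_succ_of_ne_zero hpos.ne'
        rw [Nat.succ_eq_add_one, pow_succ', Module.End.mul_apply, LinearMap.sub_apply,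
          Module.End.one_apply, sub_eq_zero]
        apply h2
        have h4 : ((E.F - 1) ^ (l + 1 + 1)) x = 0 := hk
        rw [pow_succ', pow_succ', Module.End.mul_apply, Module.End.mul_apply, LinearMap.sub_apply,
          LinearMap.sub_apply, Module.End.one_apply, Module.End.one_apply, sub_eq_zero] at h4
        exact h4

end Theory

end cycles

namespace Theory

variable (E : Theory K) {X : E.V} {m : ℕ}

lemma alg_push {Y : E.V} (f : E.Hom Y X) {A B : Set (E.Pt X)}
    {x : E.H (2 * m) m (E.onPt f ⁻¹' A) (E.onPt f ⁻¹' B)}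
    (hx : x ∈ E.alg m (E.onPt f ⁻¹' A) (E.onPt f ⁻¹' B)) :
    E.push f A B x ∈ E.alg m A B := by
  refine Submodule.span_induction (p := fun x _ => E.push f A B x ∈ E.alg m A B) ?_ ?_ ?_ ?_ hx
  · rintro _ ⟨z, hz, rfl⟩
    exact E.push_cl f B z hz
  · rw [map_zero]; exact zero_mem _
  · intro x y _ _ hx hy
    rw [map_add]; exact add_mem hx hy
  · intro c x _ hx
    rw [map_smul]; exact Submodule.smul_mem _ _ hx

lemma Strong_push {Y : E.V} (f : E.Hom Y X) {A B : Set (E.Pt X)}
    (hs : Function.Surjective (E.push f (a := 2 * m) (b := m) A B))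
    (h : E.Strong m (E.onPt f ⁻¹' A) (E.onPt f ⁻¹' B)) : E.Strong m A B := by
  intro x hx
  obtain ⟨y, rfl⟩ := hs x
  obtain ⟨y', hy', hyy⟩ := gen_lift (E.push_F f A B) hx
  rw [← hyy]
  exact E.alg_push f (h hy')

/-- **Dévissage.** The strong Tate conjecture for the smooth projective varieties of dimension at most
`n` implies it for all varieties of dimension at most `n`. -/
theorem Strong_of_SP [CharZero K] (m n : ℕ)
    (h : ∀ Y : E.V, E.SP Y → E.dim (Set.univ : Set (E.Pt Y)) ≤ n →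
      E.Strong m (Set.univ : Set (E.Pt Y)) ∅) :
    ∀ (X : E.V) (A : Set (E.Pt X)), IsClosed A → E.dim A ≤ n → E.Strong m A ∅ := by
  induction n with
  | zero =>
    intro X A hAc hA
    exact E.Strong_low ∅ hAc (hA.trans (by positivity))
  | succ n ih =>
    intro X A hAc hA
    by_cases hm : E.dim A ≤ m
    · exact E.Strong_low ∅ hAc hm
    · have h0 : 0 ≤ E.dim A := by omega
      obtain ⟨Y, f, T, hY, hdim, hpre, hTc, hT, hT', hsurj⟩ := E.alteration A hAc h0
      have h1 : E.Strong m (E.onPt f ⁻¹' A) ∅ := by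
        rw [hpre]; exact h Y hY (by rw [hdim]; exact hA)
      have h2 : E.Strong m (E.onPt f ⁻¹' A) (E.onPt f ⁻¹' T) :=
        E.Strong_open (Set.empty_subset _) (Set.preimage_mono hT) h1
      have h3 : E.Strong m A T := E.Strong_push f (hsurj _ _) h2
      have h4 : E.Strong m T ∅ :=
        ih (fun Y hY hd => h Y hY (by push_cast; omega)) X T hTc (by push_cast at hA; omega)
      exact E.Strong_total (Set.empty_subset _) hT h4 h3

theorem Strong_all [CharZero K] (m : ℕ)
    (h : ∀ Y : E.V, E.SP Y → E.Strong m (Set.univ : Set (E.Pt Y)) ∅) (X : E.V)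
    {A B : Set (E.Pt X)} (hA : IsClosed A) (hB : B ⊆ A) : E.Strong m A B :=
  E.Strong_open (Set.empty_subset _) hB
    (E.Strong_of_SP m (E.dim A).toNat (fun Y hY _ => h Y hY) X A hA (Int.self_le_toNat _))

/-- the Tate conjecture for all varieties is the strong Tate conjecture for the smooth projective
varieties -/
theorem Tate_iff [CharZero K] (m : ℕ) :
    (∀ (X : E.V) (A B : Set (E.Pt X)), IsClosed A → IsClosed B → B ⊆ A → E.Tate m A B) ↔
      ∀ Y : E.V, E.SP Y → E.Strong m (Set.univ : Set (E.Pt Y)) ∅ :=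
  ⟨fun h _ _ => E.Strong_of_Tate (Set.empty_subset _) isClosed_empty
      fun B hB _ hB' => h _ _ B isClosed_univ hB hB',
    fun h X _ _ hA _ hB => E.Tate_of_Strong (E.Strong_all m h X hA hB)⟩

end Theory

end Pool.Agent.TH116.BM
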