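import Pool.Agent.TH116.BM.Affine

/-!
# Vanishing on diagonals: from rational function fields to all function fields
-/

set_option autoImplicit false

namespace Pool.Agent.TH116.BM

open Module

variable {K : Type} [Field K]

/-- Every Frobenius invariant element of `H_{2m+s} (A ∖ B, K(m))` vanishes on a smaller open subset
`A ∖ B'` (`dim A = d`, and `B`, `B'` are closed subsets of smaller dimension). -/
def Theory.DiesOn (E : Theory K) {X : E.V} (s m d : ℕ) (A B : Set (E.Pt X)) : Prop :=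
  ∀ u : E.H (2 * m + s) m A B, E.F u = u → ∃ (B' : Set (E.Pt X)) (h : B ⊆ B'),
    IsClosed B' ∧ B' ⊆ A ∧ E.dim B' < d ∧ E.incl subset_rfl h u = 0

/-- The cohomology `H^{2j-s} (F₀ A, K(j))`, `j = d - m`, of the generic points of the varieties `A` of
dimension `d`, the limit of the groups `H_{2m+s} (A ∖ B, K(m))` with `dim B < d`, has no nonzero Frobenius
invariants. -/
def Theory.Vanishing (E : Theory K) (s m d : ℕ) : Prop :=
  ∀ (X : E.V) (A B : Set (E.Pt X)), IsClosed A → E.dim A = d → IsClosed B → B ⊆ A →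
    E.dim B < d → E.DiesOn s m d A B

/-- The same for the rational function field in `n` variables, `j = n - m`. -/
def AffineSpaces.RationalVanishing {E : Theory K} (D : AffineSpaces E) (s m n : ℕ) : Prop :=
  ∀ (i : D.I) (Z : Set (E.Pt (D.P i))), D.n i = n → IsClosed Z → D.inf i ⊆ Z →
    E.dim Z < n → E.DiesOn s m n Set.univ Z

/-- The cycle `c` with coefficients in `K` is contained in `A`, and its class in `H_{2m} (A, K(m))` is
zero. -/
def Theory.VanishesOn (E : Theory K) {X : E.V} {m : ℕ} (c : E.Z X m →₀ K) (A : Set (E.Pt X)) :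
    Prop :=
  ∃ h : ∀ z ∈ c.support, E.supp z ⊆ A, ∑ z ∈ c.support.attach, c z • E.cl z.1 ∅ (h z z.2) = 0

/-- The cycle `c` of dimension `m` on `X` is homologically equivalent to zero on a closed subset of
dimension `≤ m + 1` of `X`. This means that `c` is zero in the Chow group `CH_m X ⊗ K`: rational
equivalence is defined by divisors on subvarieties of dimension `m + 1`, and over a finite
field homological and rational equivalence agree up to torsion for such divisors. -/
def Theory.RationallyTrivial (E : Theory K) {X : E.V} {m : ℕ} (c : E.Z X m →₀ K) : Prop :=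
  ∃ W : Set (E.Pt X), IsClosed W ∧ E.dim W ≤ m + 1 ∧ E.VanishesOn c W

/-- Known properties of a morphism `f : Y → X` from a variety of dimension `d` to the closed
subset `A` of dimension `d` which is generically finite on every component, and finite and flat
over `A ∖ T`. -/
def Theory.GenericallyFinite (E : Theory K) {Y X : E.V} (f : E.Hom Y X) (A T : Set (E.Pt X))
    (d : ℕ) : Prop :=
  E.onPt f ⁻¹' A = Set.univ ∧ IsClosed T ∧ T ⊆ A ∧ E.dim T < d ∧
    ∀ B : Set (E.Pt X), IsClosed B → T ⊆ B → B ⊆ A → E.dim B < d →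
      E.dim (E.onPt f ⁻¹' B) < d ∧ ∀ a b, Function.Surjective (E.push f (a := a) (b := b) A B)

/-- Push-forward from `Z ∖ T'` to the complement of `T'` in affine space is zero, where `T'` contains the
closed subset `T` and `inf i`, but no component of dimension `n - 1` of `Z`. -/
def AffineSpaces.Effaces {E : Theory K} (D : AffineSpaces E) (i : D.I)
    (Z T T' : Set (E.Pt (D.P i))) : Prop :=
  IsClosed T' ∧ T ⊆ T' ∧ D.inf i ⊆ T' ∧ E.dim T' < D.n i ∧ E.dim (Z ∩ T') + 1 < D.n i ∧
    ∀ a b (x : E.H a b Z T'), E.incl (Set.subset_univ Z) (subset_refl T') x = 0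

/-- Further known facts on dimensions, proper images of closed subsets, affine varieties,
alterations and effaceability. -/
structure GenericFacts {E : Theory K} (D : AffineSpaces E) : Prop where
  dim_P : ∀ i, E.dim (Set.univ : Set (E.Pt (D.P i))) = D.n i
  closed_image : ∀ {Y X : E.V} (f : E.Hom Y X) (C : Set (E.Pt Y)), IsClosed C →
    IsClosed (E.onPt f '' C)
  dim_image : ∀ {Y X : E.V} (f : E.Hom Y X) (C : Set (E.Pt Y)), IsClosed C →
    E.dim (E.onPt f '' C) ≤ E.dim C
  /-- a variety of dimension `d` contains an affine smooth open subset of pure dimension `d`, the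
  homology of which vanishes in the degrees `a < d` (Artin) -/
  affine : ∀ {X : E.V} (A B : Set (E.Pt X)) (d : ℕ), IsClosed A → IsClosed B → B ⊆ A →
    E.dim A = d → E.dim B < d → ∃ B' : Set (E.Pt X), B ⊆ B' ∧ IsClosed B' ∧ B' ⊆ A ∧
      E.dim B' < d ∧ ∀ a b, a < d → ∀ x : E.H a b A B', x = 0
  /-- alterations (de Jong) -/
  alteration : ∀ (X : E.V) (A : Set (E.Pt X)) (d : ℕ), IsClosed A → E.dim A = d →
    ∃ (Y : E.V) (f : E.Hom Y X) (T : Set (E.Pt X)), E.SP Y ∧
      E.dim (Set.univ : Set (E.Pt Y)) = d ∧ E.GenericallyFinite f A T d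
  /-- effaceability: after an automorphism of affine space `𝔸ⁿ` the closed subset `Z` of dimension
  `< n` is finite over `𝔸ⁿ⁻¹`, so that its homology maps to zero over every open subset of `𝔸ⁿ⁻¹`
  (`dim T < n - 1`, and no component of dimension `n - 1` of `Z` is contained in `inf i`) -/
  efface : ∀ (i : D.I) (Z T : Set (E.Pt (D.P i))), IsClosed Z → IsClosed T →
    E.dim Z < D.n i → E.dim (Z ∩ D.inf i) + 1 < D.n i → E.dim T + 1 < D.n i →
      ∃ T', D.Effaces i Z T T'

lemma Theory.incl_zero (E : Theory K) {X : E.V} {a b : ℤ} {A B A' B' A'' B'' : Set (E.Pt X)}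
    (hA : A ⊆ A') (hB : B ⊆ B') (hA' : A' ⊆ A'') (hB' : B' ⊆ B'') (x : E.H a b A B)
    (h : E.incl hA hB x = 0) : E.incl (hA.trans hA') (hB.trans hB') x = 0 := by
  rw [← E.incl_incl hA hB hA' hB', h, map_zero]

namespace AffineSpaces

variable {E : Theory K} (D : AffineSpaces E)

/-- generalized invariants vanish generically, too -/
lemma _root_.Pool.Agent.TH116.BM.Theory.die {s m d : ℕ} (h : E.Vanishing s m d) {X : E.V}
    {A : Set (E.Pt X)} (hA : IsClosed A) (hdA : E.dim A = d) (k : ℕ) :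
    ∀ B : Set (E.Pt X), IsClosed B → B ⊆ A → E.dim B < d →
      ∀ u : E.H (2 * m + s) m A B, ((E.F - 1) ^ k) u = 0 →
        ∃ (B' : Set (E.Pt X)) (h : B ⊆ B'), IsClosed B' ∧ B' ⊆ A ∧ E.dim B' < d ∧
          E.incl subset_rfl h u = 0 := by
  induction k with
  | zero =>
    intro B hB hBA hd u hu
    have h0 : u = 0 := by simpa using hu
    exact ⟨B, subset_rfl, hB, hBA, hd, by rw [h0, map_zero]⟩
  | succ k ih =>
    intro B hB hBA hd u hu
    have h1 : E.F (((E.F - 1) ^ k) u) = ((E.F - 1) ^ k) u := by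
      rw [pow_succ', Module.End.mul_apply, LinearMap.sub_apply, Module.End.one_apply,
        sub_eq_zero] at hu
      exact hu
    obtain ⟨B₁, hB₁, hc₁, hA₁, hd₁, h₁⟩ := h X A B hA hdA hB hBA hd _ h1
    rw [pow_map (E.incl_F subset_rfl hB₁)] at h₁
    obtain ⟨B₂, hB₂, hc₂, hA₂, hd₂, h₂⟩ := ih B₁ hc₁ hA₁ hd₁ _ h₁
    rw [E.incl_incl] at h₂
    exact ⟨B₂, hB₁.trans hB₂, hc₂, hA₂, hd₂, h₂⟩

lemma die' {s m n : ℕ} (h : D.RationalVanishing s m n) {i : D.I} (hi : D.n i = n) (k : ℕ) :
    ∀ (Z : Set (E.Pt (D.P i))), IsClosed Z → D.inf i ⊆ Z → E.dim Z < n →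
      ∀ u : E.H (2 * m + s) m Set.univ Z, ((E.F - 1) ^ k) u = 0 →
        ∃ (Z' : Set (E.Pt (D.P i))) (h : Z ⊆ Z'), IsClosed Z' ∧ E.dim Z' < n ∧
          E.incl subset_rfl h u = 0 := by
  induction k with
  | zero =>
    intro Z hZ _ hd u hu
    have h0 : u = 0 := by simpa using hu
    exact ⟨Z, subset_rfl, hZ, hd, by rw [h0, map_zero]⟩
  | succ k ih =>
    intro Z hZ hinf hd u hu
    have h1 : E.F (((E.F - 1) ^ k) u) = ((E.F - 1) ^ k) u := by
      rw [pow_succ', Module.End.mul_apply, LinearMap.sub_apply, Module.End.one_apply,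
        sub_eq_zero] at hu
      exact hu
    obtain ⟨Z₁, hZ₁, hc₁, -, hd₁, h₁⟩ := h i Z hi hZ hinf hd _ h1
    rw [pow_map (E.incl_F subset_rfl hZ₁)] at h₁
    obtain ⟨Z₂, hZ₂, hc₂, hd₂, h₂⟩ := ih Z₁ hc₁ (hinf.trans hZ₁) hd₁ _ h₁
    rw [E.incl_incl] at h₂
    exact ⟨Z₂, hZ₁.trans hZ₂, hc₂, hd₂, h₂⟩

/-- the main step: smooth projective varieties -/
theorem step_diag (G : GenericFacts D) {s m d : ℕ}
    (h : D.RationalVanishing (s + 1) m (d + 1)) (hm : m + s < d) (Y : E.V) (hY : E.SP Y) (hd : E.dim (Set.univ : Set (E.Pt Y)) = d)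
    (C : Set (E.Pt Y)) (hC : IsClosed C) (hdC : E.dim C < d)
    (x : E.H (2 * m + s) m (Set.univ : Set (E.Pt Y)) C) (hx : x ∈ E.gen (2 * m + s) m Set.univ C) :
    ∃ (C' : Set (E.Pt Y)) (h : C ⊆ C'), IsClosed C' ∧ E.dim C' < d ∧
      E.incl subset_rfl h x = 0 := by
  obtain ⟨i, f, Z, T, hn, ⟨hZ, hT, hTZ, hpre, hdZ, hdT, hfin, hinj⟩, hdinf⟩ :=
    D.project Y hY d (by omega) hd
  -- the closed subset `T₁` of `Z`
  have hfZ : ∀ y, E.onPt f y ∈ Z := by
    intro y
    have h1 : y ∈ E.onPt f ⁻¹' Z := by rw [hpre]; exact Set.mem_univ y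
    exact h1
  set T₁ := T ∪ E.onPt f '' C with hT₁
  have hT₁c : IsClosed T₁ := hT.union (G.closed_image f C hC)
  have hT₁Z : T₁ ⊆ Z := by
    apply Set.union_subset hTZ
    rintro _ ⟨y, -, rfl⟩
    exact hfZ y
  have hT₁d : E.dim T₁ < d := by
    rw [hT₁, E.dim_union]
    exact max_lt hdT ((G.dim_image f C hC).trans_lt hdC)
  have hCT₁ : C ⊆ E.onPt f ⁻¹' T₁ := fun y hy => Or.inr ⟨y, hy, rfl⟩
  have hun : (Set.univ : Set (E.Pt Y)) ⊆ E.onPt f ⁻¹' Z := hpre.symm.subset
  set x₁ := E.incl hun hCT₁ x with hx₁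
  have hx₁g : x₁ ∈ E.gen (2 * m + s) m (E.onPt f ⁻¹' Z) (E.onPt f ⁻¹' T₁) := E.gen_incl _ _ hx
  set z := E.push f Z T₁ x₁ with hz
  have hzg : z ∈ E.gen (2 * m + s) m Z T₁ := gen_map (E.push_F f Z T₁) hx₁g
  -- effaceability
  obtain ⟨T', hT'c, hT₁T', hinfT', hdT', hdZT', heff⟩ := G.efface i Z T₁ hZ hT₁c
    (by rw [hn]; push_cast; omega) (by rw [hn]; push_cast; omega) (by rw [hn]; push_cast; omega)
  set z₁ := E.incl (Set.subset_union_left : Z ⊆ Z ∪ T') hT₁T' z with hz₁
  have hz₁g : z₁ ∈ E.gen (2 * m + s) m (Z ∪ T') T' := E.gen_incl _ _ hzg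
  have ha : (2 * (m : ℤ) + s) + 1 = 2 * m + (s + 1 : ℕ) := by push_cast; ring
  have h1 : E.incl (Set.subset_univ (Z ∪ T')) (subset_refl T') z₁ = 0 := by
    rw [hz₁, E.incl_incl]
    have h2 := heff _ _ (E.incl (subset_refl Z) hT₁T' z)
    rw [E.incl_incl] at h2
    exact h2
  obtain ⟨u₀, hu₀⟩ := (E.exact_closed ha Set.subset_union_right (Set.subset_univ _) z₁).1 h1
  obtain ⟨u, hu, hbu⟩ := gen_lift
    (E.bd_F ha (Set.subset_union_right : T' ⊆ Z ∪ T') (Set.subset_univ _))
    (x := u₀) (by rw [hu₀]; exact hz₁g)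
  rw [hu₀] at hbu
  -- it vanishes on a smaller open subset
  obtain ⟨k, hk⟩ := (mem_gen_iff _ _).1 hu
  have hdZT : E.dim (Z ∪ T') < D.n i := by
    rw [E.dim_union]
    apply max_lt _ hdT'
    rw [hn]; push_cast; omega
  obtain ⟨Z', hZZ', hcZ', hdZ', huZ'⟩ := D.die' h hn k (Z ∪ T')
    (hZ.union hT'c) (hinfT'.trans Set.subset_union_right) (by rw [← hn]; exact hdZT) u hk
  rw [← hn] at hdZ'
  obtain ⟨W, hW, hunion, hdimW⟩ : ∃ W : Set (E.Pt (D.P i)), IsClosed W ∧
      Z' = Z ∪ (T' ∪ W) ∧ E.dim (Z ∩ (T' ∪ W)) < d := by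
    refine ⟨closure (Z' \ (Z ∪ T')), isClosed_closure, ?_, ?_⟩
    · rw [← Set.union_assoc]
      apply Set.Subset.antisymm
      · intro p hp
        by_cases hp' : p ∈ Z ∪ T'
        · exact Or.inl hp'
        · exact Or.inr (subset_closure ⟨hp, hp'⟩)
      · apply Set.union_subset hZZ'
        exact closure_minimal Set.sdiff_subset hcZ'
    · rcases lt_or_ge (E.dim Z') 0 with hneg | hpos
      · have h2 : E.dim (Z ∩ (T' ∪ closure (Z' \ (Z ∪ T')))) ≤ E.dim Z' :=
          E.dim_mono (Set.inter_subset_left.trans (Set.subset_union_left.trans hZZ'))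
        omega
      · have h2 := D.dim_residual (Z ∪ T') Z' (hZ.union hT'c) hcZ' hpos
        have h3 : E.dim (Z ∩ closure (Z' \ (Z ∪ T'))) ≤
            E.dim ((Z ∪ T') ∩ closure (Z' \ (Z ∪ T'))) :=
          E.dim_mono (Set.inter_subset_inter_left _ Set.subset_union_left)
        rw [Set.inter_union_distrib_left, E.dim_union]
        apply max_lt
        · rw [hn] at hdZT'; push_cast at hdZT'; omega
        · rw [hn] at hdZ'; push_cast at hdZ'; omega
  subst hunion
  have hBc : IsClosed (T' ∪ W) := hT'c.union hW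
  have hT₁B : T₁ ⊆ T' ∪ W := hT₁T'.trans Set.subset_union_left
  -- so the boundary vanishes on an open subset of `Z`
  have h4 : E.incl (Set.subset_union_left : Z ⊆ Z ∪ (T' ∪ W)) hT₁B z = 0 := by
    have h5 := E.bd_incl ha (Set.subset_union_right : T' ⊆ Z ∪ T') (Set.subset_univ _)
      (Set.subset_union_right : T' ∪ W ⊆ Z ∪ (T' ∪ W)) (Set.subset_univ _)
      (subset_refl (Set.univ : Set (E.Pt (D.P i)))) hZZ'
      (Set.subset_union_left : T' ⊆ T' ∪ W) u
    rw [huZ', map_zero, hbu, hz₁, E.incl_incl] at h5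
    exact h5.symm
  have hT₁ZB : T₁ ⊆ Z ∩ (T' ∪ W) := Set.subset_inter hT₁Z hT₁B
  have h6 : E.incl (subset_refl Z) hT₁ZB z = 0 := by
    apply (E.excision Z (T' ∪ W) hZ hBc).1
    rw [map_zero, E.incl_incl]
    exact h4
  -- and `x` vanishes on an open subset of `Y`
  have hT₂c : IsClosed (Z ∩ (T' ∪ W)) := hZ.inter hBc
  have h9 : E.incl (Set.preimage_mono (subset_refl Z) :
      E.onPt f ⁻¹' Z ⊆ E.onPt f ⁻¹' Z) (Set.preimage_mono hT₁ZB) x₁ = 0 := by
    apply hinj (Z ∩ (T' ∪ W)) hT₂c ((Set.subset_union_left : T ⊆ T₁).trans hT₁ZB)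
      Set.inter_subset_left
    rw [map_zero, E.push_incl f (subset_refl Z) hT₁ZB, ← hz, h6]
  have hCC : C ⊆ E.onPt f ⁻¹' (Z ∩ (T' ∪ W)) := hCT₁.trans (Set.preimage_mono hT₁ZB)
  refine ⟨E.onPt f ⁻¹' (Z ∩ (T' ∪ W)), hCC, hT₂c.preimage (E.onPt f).continuous,
    hfin _ hT₂c hdimW, ?_⟩
  rw [hx₁, E.incl_incl] at h9
  have h10 := congrArg (E.incl (Set.subset_univ (E.onPt f ⁻¹' Z))
    (subset_refl (E.onPt f ⁻¹' (Z ∩ (T' ∪ W))))) h9
  rw [E.incl_incl, map_zero] at h10
  exact h10

/-- the rational function fields of transcendence degree `d + 1` and all function fields of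
transcendence degree `d` -/
theorem vanishing_of_rational (G : GenericFacts D) {s m d : ℕ} (hm : m + s < d)
    (h : D.RationalVanishing (s + 1) m (d + 1)) : E.Vanishing s m d := by
  intro X A B hA hd hB hBA hdB u hu
  obtain ⟨Y, f, T, hY, hdY, hpre, hT, hTA, hdT, hgen⟩ := G.alteration X A d hA hd
  have hB₁c : IsClosed (B ∪ T) := hB.union hT
  have hB₁A : B ∪ T ⊆ A := Set.union_subset hBA hTA
  have hdB₁ : E.dim (B ∪ T) < d := by rw [E.dim_union]; exact max_lt hdB hdT
  obtain ⟨hdpre, hsurj⟩ := hgen (B ∪ T) hB₁c Set.subset_union_right hB₁A hdB₁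
  set u₁ := E.incl (subset_refl A) (Set.subset_union_left : B ⊆ B ∪ T) u with hu₁
  have hu₁g : u₁ ∈ E.gen (2 * m + s) m A (B ∪ T) := E.gen_incl _ _ (gen_of_fixed hu)
  obtain ⟨y₀, hy₀⟩ := hsurj _ _ u₁
  obtain ⟨y, hy, hyy⟩ := gen_lift (E.push_F f A (B ∪ T)) (x := y₀)
    (by rw [hy₀]; exact hu₁g)
  rw [hy₀] at hyy
  obtain ⟨C, hC, hCc, hdC, hC0⟩ := D.step_diag G h hm Y hY hdY (E.onPt f ⁻¹' (B ∪ T))
    (hB₁c.preimage (E.onPt f).continuous) hdpre
    (E.incl (Set.subset_univ (E.onPt f ⁻¹' A)) (subset_refl (E.onPt f ⁻¹' (B ∪ T))) y)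
    (E.gen_incl _ _ hy)
  rw [E.incl_incl] at hC0
  have hB' : B ∪ T ⊆ (B ∪ T) ∪ E.onPt f '' C := Set.subset_union_left
  have hCB' : C ⊆ E.onPt f ⁻¹' ((B ∪ T) ∪ E.onPt f '' C) := fun y hy => Or.inr ⟨y, hy, rfl⟩
  refine ⟨(B ∪ T) ∪ E.onPt f '' C, Set.subset_union_left.trans hB',
    hB₁c.union (G.closed_image f C hCc), ?_, ?_, ?_⟩
  · apply Set.union_subset hB₁A
    rintro _ ⟨y, -, rfl⟩
    have h1 : y ∈ E.onPt f ⁻¹' A := by rw [hpre]; exact Set.mem_univ y
    exact h1
  · rw [E.dim_union]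
    exact max_lt hdB₁ ((G.dim_image f C hCc).trans_lt hdC)
  · have h1 : E.incl (subset_refl A) hB' u₁ = 0 := by
      rw [← hyy, ← E.push_incl f (subset_refl A) hB']
      have h3 : E.incl (Set.preimage_mono (subset_refl A) :
          E.onPt f ⁻¹' A ⊆ E.onPt f ⁻¹' A) (Set.preimage_mono hB') y = 0 :=
        E.incl_zero (Set.subset_univ (E.onPt f ⁻¹' A)) hC hpre.symm.subset hCB' y hC0
      rw [h3, map_zero]
    rw [hu₁, E.incl_incl] at h1
    exact h1

/-- all function fields contain the rational ones -/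
theorem rational_of_vanishing (G : GenericFacts D) {s m n : ℕ} (h : E.Vanishing s m n) :
    D.RationalVanishing s m n := by
  rintro i Z rfl hZ _ hd
  exact h (D.P i) Set.univ Z isClosed_univ (G.dim_P i) hZ (Set.subset_univ Z) hd

/-- the rational function fields of transcendence degree `d + r + 1` and all function fields of
transcendence degree `d` -/
theorem vanishing_of_rational' (G : GenericFacts D) {m : ℕ} (r : ℕ) :
    ∀ s d : ℕ, m + s < d → D.RationalVanishing (s + r + 1) m (d + r + 1) →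
      E.Vanishing s m d := by
  induction r with
  | zero => exact fun s d hm h => D.vanishing_of_rational G hm h
  | succ r ih =>
    intro s d hm h
    exact ih s d hm (D.rational_of_vanishing G (D.vanishing_of_rational G (by omega) h))

/-- Artin vanishing: only `d ≤ 2 m + s` matters -/
theorem vanishing_high (G : GenericFacts D) {s m d : ℕ} (h : 2 * m + s < d) :
    E.Vanishing s m d := by
  intro X A B hA hd hB hBA hdB u _
  obtain ⟨B', hBB', hc, hBA', hd', h0⟩ := G.affine A B d hA hB hBA hd hdB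
  exact ⟨B', hBB', hc, hBA', hd', h0 _ _ (by exact_mod_cast h) _⟩

/-- finitely many rational function fields suffice -/
theorem vanishing_of_finite (G : GenericFacts D) {s m : ℕ}
    (h : ∀ n, m + s < n → n ≤ 2 * m + s → D.RationalVanishing s m n) {t : ℕ} (ht : t < s)
    {d : ℕ} (hd : m + t < d) : E.Vanishing t m d := by
  by_cases h1 : d ≤ 2 * m + t
  · obtain ⟨r, rfl⟩ : ∃ r, s = t + r + 1 := ⟨s - t - 1, by omega⟩
    exact D.vanishing_of_rational' G r t d hd (h _ (by omega) (by omega))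
  · exact D.vanishing_high G (by omega)

end AffineSpaces

namespace Theory

variable {E : Theory K}

/-- vanishing for `s = 0` implies the strong Tate conjecture -/
theorem Strong_of_vanishing [CharZero K] {m : ℕ} (h : ∀ d, m < d → E.Vanishing 0 m d) {X : E.V}
    {A : Set (E.Pt X)} (hA : IsClosed A) : E.Strong m A ∅ := by
  suffices hs : ∀ (n : ℕ) (A : Set (E.Pt X)), IsClosed A → E.dim A ≤ n → E.Strong m A ∅ from
    hs _ A hA (Int.self_le_toNat _)
  intro n
  induction n with
  | zero =>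
    intro A hA hd
    exact E.Strong_low ∅ hA (hd.trans (by positivity))
  | succ n ih =>
    intro A hA hd
    rcases le_or_gt (E.dim A) m with hle | hgt
    · exact E.Strong_low ∅ hA hle
    · obtain ⟨d, hd'⟩ := Int.eq_ofNat_of_zero_le (show 0 ≤ E.dim A by omega)
      intro x hx
      obtain ⟨k, hk⟩ := (mem_gen_iff _ _).1 hx
      have ha : (2 * (m : ℤ)) = 2 * m + (0 : ℕ) := by push_cast; ring
      obtain ⟨B', hB', hc, hBA, hdB, h0⟩ : ∃ (B' : Set (E.Pt X)) (h : ∅ ⊆ B'), IsClosed B' ∧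
          B' ⊆ A ∧ E.dim B' < d ∧ E.incl (subset_refl A) h x = 0 := by
        have h1 := E.die (h d (by omega)) hA hd' k ∅ isClosed_empty (Set.empty_subset A)
          (by rw [E.dim_empty]; omega)
        have h2 : ∀ a : ℤ, a = 2 * m + (0 : ℕ) → ∀ x : E.H a m A ∅, ((E.F - 1) ^ k) x = 0 →
            ∃ (B' : Set (E.Pt X)) (h : ∅ ⊆ B'), IsClosed B' ∧
              B' ⊆ A ∧ E.dim B' < d ∧ E.incl (subset_refl A) h x = 0 := by
          rintro _ rfl x hx
          exact h1 x hx
        exact h2 _ ha x hk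
      obtain ⟨w, hw⟩ := (E.exact_total (Set.empty_subset B') hBA x).1 h0
      obtain ⟨w', hw', hww⟩ := gen_lift (E.incl_F hBA (subset_refl ∅)) (x := w)
        (by rw [hw]; exact hx)
      rw [← hw, ← hww]
      exact E.alg_incl _ _ (ih B' hc (by push_cast at hd; omega) hw')

/-- the union of the supports of the components of a cycle -/
lemma exists_carrier {X : E.V} {m : ℕ} (S : Finset (E.Z X m)) : ∃ B : Set (E.Pt X), IsClosed B ∧
    E.dim B ≤ m ∧ (∀ z ∈ S, E.supp z ⊆ B) ∧
      ∀ A : Set (E.Pt X), (∀ z ∈ S, E.supp z ⊆ A) → B ⊆ A := by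
  classical
  induction S using Finset.induction_on with
  | empty =>
    exact ⟨∅, isClosed_empty, by rw [E.dim_empty]; omega,
      fun z hz => absurd hz (Finset.notMem_empty z), fun A _ => Set.empty_subset A⟩
  | insert z S _ ih =>
    obtain ⟨B, hB, hd, hS, hmin⟩ := ih
    refine ⟨E.supp z ∪ B, (E.closed_supp z).union hB, ?_, ?_, ?_⟩
    · rw [E.dim_union, E.dim_supp]
      exact max_le le_rfl hd
    · intro w hw
      rcases Finset.mem_insert.1 hw with rfl | hw
      · exact Set.subset_union_left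
      · exact (hS w hw).trans Set.subset_union_right
    · intro A hA
      exact Set.union_subset (hA z (Finset.mem_insert_self z S))
        (hmin A fun w hw => hA w (Finset.mem_insert_of_mem hw))

/-- vanishing for `s = 1`: homological equivalence is rational equivalence -/
theorem rationallyTrivial {m : ℕ} (h : ∀ d, m + 1 < d → E.Vanishing 1 m d) {X : E.V}
    (c : E.Z X m →₀ K) (hc : E.VanishesOn c Set.univ) : E.RationallyTrivial c := by
  suffices hs : ∀ (n : ℕ) (A : Set (E.Pt X)), IsClosed A → E.dim A ≤ n → E.VanishesOn c A →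
      E.RationallyTrivial c from
    hs _ Set.univ isClosed_univ (Int.self_le_toNat _) hc
  intro n
  induction n with
  | zero =>
    intro A hA hd hcA
    exact ⟨A, hA, hd.trans (by positivity), hcA⟩
  | succ n ih =>
    intro A hA hd hcA
    rcases le_or_gt (E.dim A) (m + 1) with hle | hgt
    · exact ⟨A, hA, hle, hcA⟩
    · obtain ⟨d, hd'⟩ := Int.eq_ofNat_of_zero_le (show 0 ≤ E.dim A by omega)
      obtain ⟨hsub, h0⟩ := hcA
      obtain ⟨B, hB, hdB, hSB, hmin⟩ := exists_carrier (E := E) c.support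
      have hBA : B ⊆ A := hmin A hsub
      set b := ∑ z ∈ c.support.attach, c z • E.cl z.1 ∅ (hSB z z.2) with hb
      have h1 : E.incl hBA (subset_refl ∅) b = 0 := by
        rw [hb, map_sum, ← h0]
        refine Finset.sum_congr rfl fun z _ => ?_
        rw [map_smul, E.cl_incl]
      have hbF : E.F b = b := by
        rw [hb, map_sum]
        refine Finset.sum_congr rfl fun z _ => ?_
        rw [map_smul, E.cl_F]
      have ha : (2 * (m : ℤ)) + 1 = 2 * m + (1 : ℕ) := by push_cast; ring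
      obtain ⟨u₀, hu₀⟩ := (E.exact_closed ha (Set.empty_subset B) hBA b).1 h1
      obtain ⟨u, hu, hbu⟩ := gen_lift (E.bd_F ha (Set.empty_subset B) hBA)
        (x := u₀) (by rw [hu₀]; exact gen_of_fixed hbF)
      rw [hu₀] at hbu
      obtain ⟨k, hk⟩ := (mem_gen_iff _ _).1 hu
      obtain ⟨B', hBB', hc', hBA', hdB', h2⟩ := E.die (h d (by omega)) hA hd' k B hB hBA
        (by omega) u hk
      refine ih B' hc' (by push_cast at hd; omega) ⟨fun z hz => (hSB z hz).trans hBB', ?_⟩
      have h3 := E.bd_incl ha (Set.empty_subset B) hBA (Set.empty_subset B') hBA'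
        (subset_refl A) hBB' (subset_refl ∅) u
      rw [h2, map_zero, hbu, hb, map_sum] at h3
      rw [h3]
      refine Finset.sum_congr rfl fun z _ => ?_
      rw [map_smul, E.cl_incl]

end Theory

end Pool.Agent.TH116.BM
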