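import Pool.Agent.TH116.BM.Lin

/-!
# Lattices: finitely generated groups whose extension of scalars is a vector space
-/

set_option autoImplicit false

namespace Pool.Agent.TH116.BM

open Module

variable {K : Type} [Field K] [CharZero K] {V V' : Type} [AddCommGroup V] [Module K V]
  [AddCommGroup V'] [Module K V']

/-- `B` is finitely generated, linearly independent families of elements of `B` are independent over
`K`, and `B` spans `S`. -/
def Lat (K : Type) [Field K] {V : Type} [AddCommGroup V] [Module K V] (B : Submodule ℤ V)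
    (S : Submodule K V) : Prop :=
  B.FG ∧ (∀ (ι : Type) [Finite ι] (v : ι → V), (∀ i, v i ∈ B) → LinearIndependent ℤ v →
    LinearIndependent K v) ∧ Submodule.span K (B : Set V) = S

lemma isTorsionFree_of_charZero (K : Type) [Field K] [CharZero K] {V : Type} [AddCommGroup V]
    [Module K V] {n : ℤ} (hn : n ≠ 0) {x : V} (h : n • x = 0) : x = 0 := by
  rw [← Int.cast_smul_eq_zsmul K] at h
  rcases smul_eq_zero.1 h with h | h
  · exact absurd (by exact_mod_cast h) hn
  · exact h

/-- a finitely generated subgroup of `V` has a basis over `ℤ` -/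
lemma exists_basis (K : Type) [Field K] [CharZero K] {V : Type} [AddCommGroup V]
    [Module K V] {B : Submodule ℤ V} (hB : B.FG) :
    ∃ (n : ℕ) (b : Fin n → V), LinearIndependent ℤ b ∧ Submodule.span ℤ (Set.range b) = B := by
  have : Module.Finite ℤ B := Module.Finite.iff_fg.2 hB
  have : Module.IsTorsionFree ℤ B := by
    refine ⟨fun n hn x y hxy => ?_⟩
    have h0 : (n : ℤ) ≠ 0 := by
      rintro rfl
      exact one_ne_zero (α := ℤ) (by simpa using hn.left (show (0 : ℤ) * 1 = 0 * 0 by ring))
    have h1 : (n : ℤ) • ((x : V) - y) = 0 := by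
      rw [smul_sub, sub_eq_zero]
      exact congrArg Subtype.val hxy
    exact Subtype.ext (sub_eq_zero.1 (isTorsionFree_of_charZero K h0 h1))
  have : Module.Free ℤ B := inferInstance
  let b := Module.finBasis ℤ B
  refine ⟨_, fun i => (b i : V), ?_, ?_⟩
  · exact b.linearIndependent.map' B.subtype (Submodule.ker_subtype B)
  · have h2 : Set.range (fun i => (b i : V)) = B.subtype '' Set.range b := by
      rw [← Set.range_comp]; rfl
    rw [h2, ← Submodule.map_span, b.span_eq, Submodule.map_top, Submodule.range_subtype]

omit [CharZero K] in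
lemma span_int_le (A : Set V) : (Submodule.span ℤ A : Set V) ⊆ Submodule.span K A := by
  intro x hx
  refine Submodule.span_induction (p := fun x _ => x ∈ Submodule.span K A) ?_ ?_ ?_ ?_ hx
  · intro x hx; exact Submodule.subset_span hx
  · exact zero_mem _
  · intro x y _ _ hx hy; exact add_mem hx hy
  · intro n x _ hx
    rw [← Int.cast_smul_eq_zsmul K]
    exact Submodule.smul_mem _ _ hx

omit [CharZero K] in
lemma span_span_int (A : Set V) :
    Submodule.span K ((Submodule.span ℤ A : Submodule ℤ V) : Set V) = Submodule.span K A := by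
  apply le_antisymm
  · exact Submodule.span_le.2 (span_int_le A)
  · exact Submodule.span_mono Submodule.subset_span

/-- a lattice has a basis which is a basis of the vector space -/
theorem Lat.basis {B : Submodule ℤ V} {S : Submodule K V} (h : Lat K B S) :
    ∃ (n : ℕ) (b : Fin n → V), LinearIndependent K b ∧ Submodule.span ℤ (Set.range b) = B ∧
      Submodule.span K (Set.range b) = S := by
  obtain ⟨h1, h2, h3⟩ := h
  obtain ⟨n, b, hb, hspan⟩ := exists_basis K h1
  refine ⟨n, b, h2 _ b (fun i => ?_) hb, hspan, ?_⟩
  · rw [← hspan]; exact Submodule.subset_span ⟨i, rfl⟩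
  · rw [← h3, ← hspan, span_span_int]

/-- images of lattices -/
theorem Lat.map {B : Submodule ℤ V} {S : Submodule K V} (h : Lat K B S) (φ : V →ₗ[K] V')
    (hker : ∀ x ∈ S, φ x = 0 → x ∈ Submodule.span K {y | y ∈ B ∧ φ y = 0}) :
    Lat K (B.map (φ.restrictScalars ℤ)) (S.map φ) := by
  classical
  obtain ⟨h1, h2, h3⟩ := h
  refine ⟨h1.map _, ?_, ?_⟩
  · intro ι _ v hv hind
    have := Fintype.ofFinite ι
    choose β hβ hβv using hv
    have hβv' : ∀ i, φ (β i) = v i := hβv
    -- the kernel of `φ` on `B`
    have : IsNoetherian ℤ B := by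
      have : Module.Finite ℤ B := Module.Finite.iff_fg.2 h1
      exact isNoetherian_of_isNoetherianRing_of_finite ℤ B
    set B₀ : Submodule ℤ V := B ⊓ LinearMap.ker (φ.restrictScalars ℤ) with hB₀
    have hfg : B₀.FG := by
      have h5 : (B₀.comap B.subtype).FG := IsNoetherian.noetherian _
      have h6 := h5.map B.subtype
      rwa [Submodule.map_comap_subtype, inf_eq_right.2 inf_le_left] at h6
    obtain ⟨k, ν, hν, hνspan⟩ := exists_basis K hfg
    have hνB : ∀ j, ν j ∈ B₀ := fun j => by rw [← hνspan]; exact Submodule.subset_span ⟨j, rfl⟩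
    have hν0 : ∀ j, φ (ν j) = 0 := fun j => (hνB j).2
    have hw : LinearIndependent ℤ (Sum.elim β ν) := by
      rw [Fintype.linearIndependent_iff] at hind hν ⊢
      intro g hg
      rw [Fintype.sum_sum_type] at hg
      simp only [Sum.elim_inl, Sum.elim_inr] at hg
      have h7 : ∑ i, g (Sum.inl i) • v i = 0 := by
        have h8 := congrArg (φ.restrictScalars ℤ) hg
        rw [map_add, map_sum, map_sum, map_zero] at h8
        simp only [map_smul, LinearMap.coe_restrictScalars, hβv', hν0, smul_zero,
          Finset.sum_const_zero, add_zero] at h8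
        exact h8
      have h9 := hind _ h7
      have h10 : ∑ j, g (Sum.inr j) • ν j = 0 := by
        simpa [h9] using hg
      have h11 := hν _ h10
      rintro (i | j)
      · exact h9 i
      · exact h11 j
    have hwK := h2 (ι ⊕ Fin k) (Sum.elim β ν) (by
      rintro (i | j)
      · exact hβ i
      · exact (hνB j).1) hw
    rw [Fintype.linearIndependent_iff] at hwK ⊢
    intro c hc
    have hx0 : φ (∑ i, c i • β i) = 0 := by
      rw [map_sum]
      simpa [hβv'] using hc
    have hxS : (∑ i, c i • β i) ∈ S := by
      rw [← h3]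
      exact Submodule.sum_mem _ fun i _ => Submodule.smul_mem _ _ (Submodule.subset_span (hβ i))
    have hx1 := hker _ hxS hx0
    have h12 : {y | y ∈ B ∧ φ y = 0} = (B₀ : Set V) := rfl
    rw [h12, ← hνspan, span_span_int, Submodule.mem_span_range_iff_exists_fun] at hx1
    obtain ⟨e, he⟩ := hx1
    intro i
    refine hwK (Sum.elim c fun j => -e j) ?_ (Sum.inl i)
    rw [Fintype.sum_sum_type]
    simp only [Sum.elim_inl, Sum.elim_inr, neg_smul, Finset.sum_neg_distrib]
    rw [he, add_neg_cancel]
  · rw [← h3, Submodule.map_span]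
    rfl

/-- a group containing a lattice with bounded exponent of the quotient is a lattice -/
theorem Lat.of_index {B B' : Submodule ℤ V} {S : Submodule K V} (h : Lat K B S) (hle : B ≤ B')
    {M : ℤ} (hM : M ≠ 0) (hM' : ∀ x ∈ B', M • x ∈ B) : Lat K B' S := by
  obtain ⟨h1, h2, h3⟩ := h
  have hinj : Function.Injective (fun x : V => M • x) := by
    intro x y hxy
    have h4 : M • (x - y) = 0 := by rw [smul_sub]; exact sub_eq_zero.2 hxy
    exact sub_eq_zero.1 (isTorsionFree_of_charZero K hM h4)
  refine ⟨?_, ?_, ?_⟩
  · have : IsNoetherian ℤ B := by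
      have : Module.Finite ℤ B := Module.Finite.iff_fg.2 h1
      exact isNoetherian_of_isNoetherianRing_of_finite ℤ B
    let f : B' →ₗ[ℤ] B :=
      { toFun := fun x => ⟨M • (x : V), hM' x x.2⟩
        map_add' := fun x y => Subtype.ext (smul_add M (x : V) (y : V))
        map_smul' := fun n x => Subtype.ext (smul_comm M n (x : V)) }
    have hf : Function.Injective f := fun x y hxy =>
      Subtype.ext (hinj (congrArg Subtype.val hxy))
    have := isNoetherian_of_injective f hf
    exact Module.Finite.iff_fg.1 inferInstance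
  · intro ι _ v hv hind
    have := Fintype.ofFinite ι
    have h4 : LinearIndependent ℤ (fun i => M • v i) := by
      rw [Fintype.linearIndependent_iff] at hind ⊢
      intro g hg
      apply hind g
      have h5 : M • ∑ i, g i • v i = 0 := by
        rw [Finset.smul_sum, ← hg]
        exact Finset.sum_congr rfl fun i _ => smul_comm _ _ _
      exact isTorsionFree_of_charZero K hM h5
    have h5 := h2 ι _ (fun i => hM' _ (hv i)) h4
    rw [Fintype.linearIndependent_iff] at h5 ⊢
    intro g hg
    apply h5 g
    have h6 : ∑ i, g i • M • v i = M • ∑ i, g i • v i := by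
      rw [Finset.smul_sum]
      exact Finset.sum_congr rfl fun i _ => (smul_comm _ _ _)
    rw [h6, hg, smul_zero]
  · apply le_antisymm
    · rw [← h3]
      apply Submodule.span_le.2
      intro x hx
      have h4 : (M : K) • x ∈ Submodule.span K (B : Set V) := by
        rw [Int.cast_smul_eq_zsmul]
        exact Submodule.subset_span (hM' x hx)
      have h5 : (M : K) ≠ 0 := by exact_mod_cast hM
      have h6 := Submodule.smul_mem _ (M : K)⁻¹ h4
      rwa [smul_smul, inv_mul_cancel₀ h5, one_smul] at h6
    · rw [← h3]
      exact Submodule.span_mono hle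

/-- lattices from integral functionals -/
theorem Lat.of_functionals {ι : Type} [Finite ι] (Φ : V →ₗ[K] (ι → K)) {B : Submodule ℤ V}
    (hint : ∀ x ∈ B, ∀ i, ∃ n : ℤ, Φ x i = n)
    (hinj : ∀ x ∈ Submodule.span K (B : Set V), Φ x = 0 → x = 0) :
    Lat K B (Submodule.span K (B : Set V)) := by
  classical
  have hint' : ∀ x : B, ∀ i, ∃ n : ℤ, Φ x i = n := fun x => hint x x.2
  choose N hN using hint'
  have hNadd : ∀ x y : B, N (x + y) = N x + N y := by
    intro x y
    ext i
    have h1 := hN (x + y) i
    rw [Submodule.coe_add, map_add, Pi.add_apply, hN x i, hN y i] at h1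
    rw [Pi.add_apply]
    exact_mod_cast h1.symm
  let f : B →+ (ι → ℤ) :=
    { toFun := N
      map_zero' := by
        ext i
        have h1 := hN 0 i
        rw [Submodule.coe_zero, map_zero, Pi.zero_apply] at h1
        rw [Pi.zero_apply]
        exact_mod_cast h1.symm
      map_add' := hNadd }
  let g : B →ₗ[ℤ] (ι → ℤ) := f.toIntLinearMap
  have hg : ∀ x : B, Φ x = fun i => ((g x i : ℤ) : K) := fun x => funext (hN x)
  have hginj : Function.Injective g := by
    intro x y hxy
    have h1 : Φ ((x : V) - y) = 0 := by
      rw [map_sub, hg, hg, hxy, sub_self]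
    have h2 := hinj _ (sub_mem (Submodule.subset_span x.2) (Submodule.subset_span y.2)) h1
    exact Subtype.ext (sub_eq_zero.1 h2)
  refine ⟨?_, ?_, rfl⟩
  · have := isNoetherian_of_injective g hginj
    exact Module.Finite.iff_fg.1 inferInstance
  · intro κ _ v hv hind
    have h1 : LinearIndependent ℤ (fun i => (⟨v i, hv i⟩ : B)) := by
      apply LinearIndependent.of_comp B.subtype
      exact hind
    have h2 := h1.map' g (LinearMap.ker_eq_bot.2 hginj)
    have h3 := (linearIndependent_algebraMap_comp_iff (R := ℤ) (S := K)).2 h2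
    have h4 : (fun i => algebraMap ℤ K ∘ (g ∘ fun i => (⟨v i, hv i⟩ : B)) i) = fun i => Φ (v i) := by
      funext i
      rw [show Φ (v i) = _ from hg ⟨v i, hv i⟩]
      rfl
    rw [h4] at h3
    exact LinearIndependent.of_comp Φ h3

end Pool.Agent.TH116.BM
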