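import Pool.Agent.TH116.BM.Dev
import Pool.Agent.TH116.BM.Lattice

/-!
# Duality, covers, and the group of cycle classes
-/

set_option autoImplicit false

namespace Pool.Agent.TH116.BM

open Module Polynomial

section lin

variable {K : Type*} [Field K] {M N : Type*} [AddCommGroup M] [Module K M] [AddCommGroup N]
  [Module K N]

/-- the decomposition of Fitting -/
lemma gen_split [FiniteDimensional K M] (f : End K M) (k : ℕ) (y : M) :
    ∃ g ∈ End.maxGenEigenspace f 1, ∃ w, y = g + ((f - 1) ^ k) w := by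
  obtain ⟨q, hq, hdvd⟩ := f.charpoly.exists_eq_pow_rootMultiplicity_mul_and_not_dvd
    (LinearMap.charpoly_monic f).ne_zero 1
  generalize f.charpoly.rootMultiplicity 1 = a at hq
  have hirr : Irreducible (X - C (1 : K)) := irreducible_X_sub_C 1
  have hcop : IsCoprime ((X - C (1 : K)) ^ k) q :=
    IsCoprime.pow_left ((Irreducible.coprime_iff_not_dvd hirr).2 hdvd)
  obtain ⟨u, v, huv⟩ := hcop
  have hch : aeval f f.charpoly = 0 := LinearMap.aeval_self_charpoly f
  refine ⟨aeval f (v * q) y, ?_, aeval f u y, ?_⟩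
  · rw [mem_gen_iff]
    refine ⟨a, ?_⟩
    have h0 : (f - 1) ^ a = aeval f ((X - C (1 : K)) ^ a) := by
      rw [map_pow, aeval_X_sub_one]
    have h1 : (X - C (1 : K)) ^ a * (v * q) = v * f.charpoly := by
      rw [hq]; ring
    rw [h0, ← Module.End.mul_apply, ← map_mul, h1, map_mul, hch, mul_zero, LinearMap.zero_apply]
  · have h0 : (f - 1) ^ k = aeval f ((X - C (1 : K)) ^ k) := by
      rw [map_pow, aeval_X_sub_one]
    rw [h0, ← Module.End.mul_apply, ← map_mul, ← LinearMap.add_apply, ← map_add]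
    have h1 : v * q + (X - C (1 : K)) ^ k * u = 1 := by rw [← huv]; ring
    rw [h1, map_one, Module.End.one_apply]

/-- generalized invariants are orthogonal to the image of a power of `g - 1` -/
lemma pair_pow {f : End K M} {g : End K N} {B : M →ₗ[K] N →ₗ[K] K}
    (h : ∀ x y, B (f x) (g y) = B x y) (k : ℕ) :
    ∀ x y, ((f - 1) ^ k) x = 0 → B x (((g - 1) ^ k) y) = 0 := by
  induction k with
  | zero =>
    intro x y hx
    have h0 : x = 0 := by simpa using hx
    rw [h0, map_zero, LinearMap.zero_apply]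
  | succ k ih =>
    intro x y hx
    have h1 : ∀ z, B x ((g - 1) z) = - B ((f - 1) x) (g z) := by
      intro z
      rw [LinearMap.sub_apply, LinearMap.sub_apply, Module.End.one_apply, Module.End.one_apply,
        map_sub, map_sub, LinearMap.sub_apply, h]
      ring
    have h2 : g (((g - 1) ^ k) y) = ((g - 1) ^ k) (g y) := pow_map (fun z => rfl) k y
    rw [pow_succ', Module.End.mul_apply, h1, h2]
    rw [pow_succ, Module.End.mul_apply] at hx
    rw [ih _ _ hx, neg_zero]

/-- a generalized invariant orthogonal to all generalized invariants is orthogonal to everything -/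
lemma pair_gen [FiniteDimensional K N] {f : End K M} {g : End K N} {B : M →ₗ[K] N →ₗ[K] K}
    (h : ∀ x y, B (f x) (g y) = B x y) {x : M} (hx : x ∈ End.maxGenEigenspace f 1)
    (h0 : ∀ y ∈ End.maxGenEigenspace g 1, B x y = 0) (y : N) : B x y = 0 := by
  obtain ⟨k, hk⟩ := (mem_gen_iff _ _).1 hx
  obtain ⟨y', hy', w, rfl⟩ := gen_split g k y
  rw [map_add, h0 _ hy', pair_pow h k x w hk, add_zero]

end lin

variable {K : Type} [Field K]

/-- the group generated by the classes of the closed subvarieties of dimension `m` of `A ∖ B` -/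
def Theory.cyc (E : Theory K) {X : E.V} (m : ℕ) (A B : Set (E.Pt X)) :
    Submodule ℤ (E.H (2 * m) m A B) :=
  Submodule.span ℤ {y | ∃ (z : E.Z X m) (h : E.supp z ⊆ A), E.cl z B h = y}

/-- the homology `H_{2m} (X, K(m))` of the proper variety `X` -/
abbrev Theory.Ht (E : Theory K) (X : E.V) (m : ℕ) : ModuleCat.{0} K :=
  E.H (2 * m) m (Set.univ : Set (E.Pt X)) ∅

/-- the Frobenius automorphism of `H_{2m} (X, K(m))` -/
abbrev Theory.Fr (E : Theory K) (X : E.V) (m : ℕ) : Module.End K (E.Ht X m) := E.F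

/-- the generalized eigenspace of Frobenius on `H_{2m} (X, K(m))` for the eigenvalue `1` -/
abbrev Theory.gen1 (E : Theory K) (X : E.V) (m : ℕ) : Submodule K (E.Ht X m) :=
  Module.End.maxGenEigenspace (E.Fr X m) 1

/-- the class in `H_{2m} (X, K(m))` of a closed subvariety of dimension `m` of `X` -/
abbrev Theory.cls (E : Theory K) {X : E.V} {m : ℕ} (z : E.Z X m) : E.Ht X m :=
  E.cl z ∅ (Set.subset_univ _)

/-- the group generated by the classes of closed subvarieties in `H_{2m} (X, K(m))` -/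
abbrev Theory.cyc1 (E : Theory K) (X : E.V) (m : ℕ) : Submodule ℤ (E.Ht X m) :=
  E.cyc m (Set.univ : Set (E.Pt X)) ∅

/-- the push-forward for a morphism of proper varieties -/
def Theory.direct (E : Theory K) {Y X : E.V} (f : E.Hom Y X) (m : ℕ) :
    E.Ht Y m →ₗ[K] E.Ht X m :=
  E.push f Set.univ ∅

/-- Poincaré duality and integrality of intersection numbers for smooth projective varieties. -/
structure Duality (E : Theory K) where
  pair : ∀ Y m m', E.Ht Y m →ₗ[K] E.Ht Y m' →ₗ[K] K
  pair_F : ∀ Y m m', E.SP Y → ∀ x y, pair Y m m' (E.Fr Y m x) (E.Fr Y m' y) = pair Y m m' x y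
  nondegenerate : ∀ Y (m m' : ℕ), E.SP Y → E.dim (Set.univ : Set (E.Pt Y)) = m + m' →
    ∀ x, (∀ y, pair Y m m' x y = 0) → x = 0
  integral : ∀ Y m m' (z : E.Z Y m) (z' : E.Z Y m'), E.SP Y →
    ∃ n : ℤ, pair Y m m' (E.cls z) (E.cls z') = n

/-- Known properties of a surjective morphism `f : Y → X` of proper varieties and of the
projections `p`, `q` of `W = Y ×_X Y` (proper descent and weights): the homology of weight zero of `X`
is the cokernel of `p_* - q_*`, and for some integer `M ≠ 0` the `M`-fold of every closed subvariety of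
`X` is the push-forward of a cycle on `Y`. -/
def Theory.IsCover (E : Theory K) {W Y X : E.V} (m : ℕ) (f : E.Hom Y X) (p q : E.Hom W Y) : Prop :=
  (∀ x ∈ E.gen1 X m, ∃ y ∈ E.gen1 Y m, E.direct f m y = x) ∧
  (∀ w, E.direct f m (E.direct p m w) = E.direct f m (E.direct q m w)) ∧
  (∀ y ∈ E.gen1 Y m, E.direct f m y = 0 →
    ∃ w ∈ E.gen1 W m, E.direct p m w = y + E.direct q m w) ∧
  ∃ M : ℤ, M ≠ 0 ∧ ∀ z : E.Z X m, ∃ y ∈ E.cyc1 Y m, E.direct f m y = (M : K) • E.cls z

/-- The push-forward of a closed subvariety is an integral multiple of a closed subvariety, and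
every proper variety `X` has a surjective morphism `f : Y → X`, `Y` smooth projective (de Jong); for
`W = Y ×_X Y` see `IsCover`. -/
structure Covers (E : Theory K) where
  push_integral : ∀ {Y X : E.V} (f : E.Hom Y X) {m} (z : E.Z Y m),
    E.direct f m (E.cls z) ∈ E.cyc1 X m
  cover : ∀ (X : E.V) (m : ℕ), ∃ (Y W : E.V) (f : E.Hom Y X) (p q : E.Hom W Y),
    E.SP Y ∧ E.IsCover m f p q

namespace Theory

variable (E : Theory K)

lemma span_cyc {X : E.V} (m : ℕ) (A B : Set (E.Pt X)) :
    Submodule.span K (E.cyc m A B : Set (E.H (2 * m) m A B)) = E.alg m A B :=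
  span_span_int _

lemma cyc_le_alg {X : E.V} {m : ℕ} {A B : Set (E.Pt X)} {x : E.H (2 * m) m A B}
    (hx : x ∈ E.cyc m A B) : x ∈ E.alg m A B := by
  rw [← span_cyc]; exact Submodule.subset_span hx

lemma direct_alg {Y X : E.V} (f : E.Hom Y X) {m : ℕ}
    {x : E.H (2 * m) m (Set.univ : Set (E.Pt Y)) ∅} (hx : x ∈ E.alg m Set.univ ∅) :
    E.direct f m x ∈ E.alg m Set.univ ∅ :=
  E.alg_push f (A := Set.univ) (B := ∅) hx

/-- the lattice of cycle classes of a smooth projective variety -/
theorem lat_SP [CharZero K] (P : Duality E) {Y : E.V} (hY : E.SP Y) (m : ℕ)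
    (h : ∀ m' : ℕ, E.Strong m' (Set.univ : Set (E.Pt Y)) ∅) :
    Lat K (E.cyc m (Set.univ : Set (E.Pt Y)) ∅) (E.alg m Set.univ ∅) := by
  classical
  rw [← span_cyc]
  by_cases hdim : E.dim (Set.univ : Set (E.Pt Y)) < m
  · -- there are no cycles of dimension `m`
    have h0 : E.cyc m (Set.univ : Set (E.Pt Y)) ∅ = ⊥ := by
      rw [cyc, Submodule.span_eq_bot]
      rintro _ ⟨z, hz, rfl⟩
      have h1 := E.dim_mono (Set.subset_univ (E.supp z))
      rw [E.dim_supp] at h1
      omega
    rw [h0]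
    refine Lat.of_functionals (ι := Fin 0) 0 (fun x _ i => i.elim0) fun x hx _ => ?_
    simpa using hx
  · obtain ⟨m', hm'⟩ : ∃ m' : ℕ, E.dim (Set.univ : Set (E.Pt Y)) = m + m' :=
      ⟨(E.dim (Set.univ : Set (E.Pt Y)) - m).toNat, by omega⟩
    obtain ⟨S, hS, hspan⟩ := (Submodule.fg_span_iff_fg_span_finset_subset _).1
      (IsNoetherian.noetherian (E.alg m' (Set.univ : Set (E.Pt Y)) ∅))
    let Φ : E.H (2 * m) m (Set.univ : Set (E.Pt Y)) ∅ →ₗ[K] (S → K) :=
      LinearMap.pi fun t => (P.pair Y m m').flip t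
    refine Lat.of_functionals Φ ?_ ?_
    · intro x hx t
      obtain ⟨z', hz', hzt⟩ := hS t.2
      change ∃ n : ℤ, P.pair Y m m' x t = n
      rw [← hzt]
      refine Submodule.span_induction
        (p := fun x _ => ∃ n : ℤ, P.pair Y m m' x (E.cl z' ∅ hz') = n) ?_ ?_ ?_ ?_ hx
      · rintro _ ⟨z, hz, rfl⟩
        exact P.integral Y m m' z z' hY
      · exact ⟨0, by rw [map_zero, LinearMap.zero_apply, Int.cast_zero]⟩
      · rintro a b _ _ ⟨n₁, h₁⟩ ⟨n₂, h₂⟩
        exact ⟨n₁ + n₂, by rw [map_add, LinearMap.add_apply, h₁, h₂, Int.cast_add]⟩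
      · rintro c a _ ⟨n₁, h₁⟩
        exact ⟨c * n₁, by rw [map_zsmul, LinearMap.smul_apply, h₁, zsmul_eq_mul, Int.cast_mul]⟩
    · intro x hx hx0
      rw [span_cyc] at hx
      have h1 : ∀ y ∈ E.alg m' (Set.univ : Set (E.Pt Y)) ∅, P.pair Y m m' x y = 0 := by
        intro y hy
        have hy' : y ∈ Submodule.span K (S : Set (E.H (2 * m') m' (Set.univ : Set (E.Pt Y)) ∅)) := by
          rw [← hspan]; exact hy
        refine Submodule.span_induction (p := fun y _ => P.pair Y m m' x y = 0) ?_ ?_ ?_ ?_ hy'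
        · intro t ht
          exact congrFun hx0 ⟨t, ht⟩
        · exact map_zero _
        · intro a b _ _ ha hb
          rw [map_add, ha, hb, add_zero]
        · intro c a _ ha
          rw [map_smul, ha, smul_zero]
      exact P.nondegenerate Y m m' hY hm' x
        (pair_gen (P.pair_F Y m m' hY) (E.alg_gen hx) fun y hy => h1 y (h m' hy))

/-- the lattice of cycle classes of a proper variety -/
theorem lat_proper [CharZero K] (P : Duality E) (C : Covers E)
    (h : ∀ (m : ℕ) (X : E.V) (A B : Set (E.Pt X)), IsClosed A → B ⊆ A → E.Strong m A B)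
    (X : E.V) (m : ℕ) : Lat K (E.cyc m (Set.univ : Set (E.Pt X)) ∅) (E.alg m Set.univ ∅) := by
  obtain ⟨Y, W, f, p, q, hY, hsurj, hcomm, hex, M, hM, hM'⟩ := C.cover X m
  have hlat := E.lat_SP P hY m fun m' => h m' Y _ _ isClosed_univ (Set.empty_subset _)
  have h1 := hlat.map (E.direct f m) (by
    intro x hx hx0
    obtain ⟨w, hw, hwx⟩ := hex x (E.alg_gen hx) hx0
    have hx' : x = E.direct p m w - E.direct q m w := by rw [hwx, add_sub_cancel_right]
    rw [hx']
    have hw' : w ∈ E.alg m (Set.univ : Set (E.Pt W)) ∅ :=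
      h m W _ _ isClosed_univ (Set.empty_subset _) hw
    refine Submodule.span_induction (p := fun w _ => E.direct p m w - E.direct q m w ∈
      Submodule.span K {y | y ∈ E.cyc m (Set.univ : Set (E.Pt Y)) ∅ ∧ E.direct f m y = 0})
      ?_ ?_ ?_ ?_ hw'
    · rintro _ ⟨z, hz, rfl⟩
      apply Submodule.subset_span
      refine ⟨sub_mem (C.push_integral p z) (C.push_integral q z), ?_⟩
      rw [map_sub, hcomm, sub_self]
    · rw [map_zero, map_zero, sub_zero]; exact zero_mem _
    · intro a b _ _ ha hb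
      rw [map_add, map_add, add_sub_add_comm]; exact add_mem ha hb
    · intro c a _ ha
      rw [map_smul, map_smul, ← smul_sub]; exact Submodule.smul_mem _ _ ha)
  have h2 : (E.alg m (Set.univ : Set (E.Pt Y)) ∅).map (E.direct f m) =
      E.alg m (Set.univ : Set (E.Pt X)) ∅ := by
    apply le_antisymm
    · rintro _ ⟨y, hy, rfl⟩
      exact E.direct_alg f hy
    · intro x hx
      obtain ⟨y, hy, rfl⟩ := hsurj x (E.alg_gen hx)
      exact ⟨y, h m Y _ _ isClosed_univ (Set.empty_subset _) hy, rfl⟩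
  rw [h2] at h1
  refine h1.of_index ?_ hM ?_
  · rintro _ ⟨y, hy, rfl⟩
    refine Submodule.span_induction (p := fun y _ => E.direct f m y ∈ E.cyc m Set.univ ∅)
      ?_ ?_ ?_ ?_ hy
    · rintro _ ⟨z, hz, rfl⟩
      exact C.push_integral f z
    · rw [map_zero]; exact zero_mem _
    · intro a b _ _ ha hb
      rw [map_add]; exact add_mem ha hb
    · intro c a _ ha
      rw [map_zsmul]; exact Submodule.smul_mem _ _ ha
  · intro x hx
    refine Submodule.span_induction (p := fun x _ => M • x ∈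
      (E.cyc m (Set.univ : Set (E.Pt Y)) ∅).map ((E.direct f m).restrictScalars ℤ)) ?_ ?_ ?_ ?_ hx
    · rintro _ ⟨z, hz, rfl⟩
      obtain ⟨y, hy, hyz⟩ := hM' z
      refine ⟨y, hy, ?_⟩
      rw [← Int.cast_smul_eq_zsmul K]
      exact hyz
    · rw [smul_zero]; exact zero_mem _
    · intro a b _ _ ha hb
      rw [smul_add]; exact add_mem ha hb
    · intro c a _ ha
      rw [smul_comm]; exact Submodule.smul_mem _ _ ha

/-- the lattice of cycle classes of an arbitrary variety -/
theorem lat_all [CharZero K] (P : Duality E) (C : Covers E)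
    (h : ∀ (m : ℕ) (X : E.V) (A B : Set (E.Pt X)), IsClosed A → B ⊆ A → E.Strong m A B)
    {X : E.V} (m : ℕ) {B : Set (E.Pt X)} (hB : IsClosed B) :
    Lat K (E.cyc m Set.univ B) (E.alg m Set.univ B) := by
  have h1 := (E.lat_proper P C h X m).map
    (E.incl (subset_refl (Set.univ : Set (E.Pt X))) (Set.empty_subset B)) (by
    intro x hx hx0
    obtain ⟨w, rfl⟩ := (E.exact_total (Set.empty_subset B) (Set.subset_univ B) x).1 hx0
    obtain ⟨w', hw', hww⟩ := gen_lift
      (E.incl_F (Set.subset_univ B) (subset_refl (∅ : Set (E.Pt X)))) (E.alg_gen hx)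
    rw [← hww]
    have hw'' : w' ∈ E.alg m B (∅ : Set (E.Pt X)) := h m X _ _ hB (Set.empty_subset _) hw'
    refine Submodule.span_induction (p := fun w _ =>
      E.incl (Set.subset_univ B) (subset_refl (∅ : Set (E.Pt X))) w ∈
      Submodule.span K {y | y ∈ E.cyc m (Set.univ : Set (E.Pt X)) ∅ ∧
        E.incl (subset_refl (Set.univ : Set (E.Pt X))) (Set.empty_subset B) y = 0})
      ?_ ?_ ?_ ?_ hw''
    · rintro _ ⟨z, hz, rfl⟩
      apply Submodule.subset_span
      rw [E.cl_incl]
      refine ⟨Submodule.subset_span ⟨z, Set.subset_univ _, rfl⟩, ?_⟩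
      rw [E.cl_incl]
      exact E.cl_zero _ _ hz
    · rw [map_zero]; exact zero_mem _
    · intro a b _ _ ha hb
      rw [map_add]; exact add_mem ha hb
    · intro c a _ ha
      rw [map_smul]; exact Submodule.smul_mem _ _ ha)
  have h2 : (E.alg m (Set.univ : Set (E.Pt X)) ∅).map
      (E.incl (subset_refl (Set.univ : Set (E.Pt X))) (Set.empty_subset B)) =
      E.alg m Set.univ B := by
    apply le_antisymm
    · rintro _ ⟨y, hy, rfl⟩
      exact E.alg_incl _ _ hy
    · intro x hx
      obtain ⟨y, hy, rfl⟩ := E.alg_lift (Set.empty_subset B) hx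
      exact ⟨y, hy, rfl⟩
  have h3 : (E.cyc m (Set.univ : Set (E.Pt X)) ∅).map
      ((E.incl (subset_refl (Set.univ : Set (E.Pt X)))
        (Set.empty_subset B)).restrictScalars ℤ) = E.cyc m Set.univ B := by
    rw [cyc, cyc, Submodule.map_span]
    congr 1
    ext y
    constructor
    · rintro ⟨_, ⟨z, hz, rfl⟩, rfl⟩
      exact ⟨z, hz, (E.cl_incl z hz _ _).symm⟩
    · rintro ⟨z, hz, rfl⟩
      exact ⟨_, ⟨z, hz, rfl⟩, E.cl_incl z hz _ _⟩
  rw [h2, h3] at h1
  exact h1

end Theory

end Pool.Agent.TH116.BM
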